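import Pool.Agent.Q263.PK.Sng
import Pool.Agent.Q263.PL.Law

set_option autoImplicit false

/-!
# The conditional Poisson law along a finite set of integers, in one class modulo the small primes
-/

namespace Pool.Agent.Q263.PK

open Finset Filter Pool.Agent.H373R2.T7 Pool.Agent.W123.RP Pool.Agent.W123.RU Pool.Agent.TH464.PO
open Pool.Agent.Q236.CP Pool.Agent.Q236.ML
open Pool.Agent.Q263.PL

open Classical in
lemma St_St (P Q : ℕ → ℕ → Prop) (J : Finset ℕ) (w y : ℕ) (Om : Finset ℕ) :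
    St (QH Q J) w y (St P w y Om) = St (PJ P Q J) w y Om := by
  unfold St
  rw [filter_filter]
  apply filter_congr
  intro n _
  unfold PJ
  constructor
  · rintro ⟨h1, h2⟩ p hp hw
    rintro (h | h)
    · exact h1 p hp hw h
    · exact h2 p hp hw h
  · intro h
    exact ⟨fun p hp hw hq => h p hp hw (Or.inl hq), fun p hp hw hq => h p hp hw (Or.inr hq)⟩

open Classical in
/-- the conditional binomial moments in a class -/
lemma moment_cls2 (P Q : ℕ → ℕ → Prop) (c : ℕ) (hQ : PerB Q c) (w y a k : ℕ) (B : Finset ℕ) (hwy : w ≤ y)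
    (Om : Finset ℕ) (hOm : ∀ n ∈ Om, ∀ p ∈ pz w, n % p = a % p) :
    ∑ n ∈ St P w y Om, ((NB Q y B n).choose k : ℝ) =
      ∑ J ∈ powersetCard k (Ba Q w a B), ((St (PJ P Q J) w y Om).card : ℝ) := by
  rw [moment_cls' Q c hQ w y a k B hwy (St P w y Om) (by
    intro n hn
    unfold St at hn
    rw [mem_filter] at hn
    exact hOm n hn.1)]
  apply sum_congr rfl
  intro J _
  rw [St_St]

open Classical in
/-- **The conditional Poisson law in one class** modulo the small primes, along a finite set. -/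
theorem cls_law2 (c : ℕ) (Λ ε : ℝ) (hΛ : 0 ≤ Λ) (hε : 0 < ε) :
    ∃ (R w0 : ℕ) (η3 δ : ℝ), 1 ≤ w0 ∧ 0 < η3 ∧ 0 < δ ∧ ∀ w : ℕ, w0 ≤ w →
      ∀ (P Q : ℕ → ℕ → Prop) (y a : ℕ) (B Om : Finset ℕ), PerB P c → PerB Q c → w ≤ y →
      (∀ n ∈ Om, ∀ p ∈ pz w, n % p = a % p) → FL Om w y ((1 + R) * c) δ →
      Vt Q w y ≤ η3 → (Ba Q w a B).card * Vt Q w y ≤ Λ →
      Vt Q w y ^ 2 * Sg Q (Kx R c) w y (Ba Q w a B) ≤ η3 →
      Vt Q w y * Sp P Q (Kx R c) w y (Ba Q w a B) ≤ η3 →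
      ∀ A : Finset ℕ, |(((St P w y Om).filter (fun n => NB Q y B n ∈ A)).card : ℝ) -
        (St P w y Om).card * Po ((Ba Q w a B).card * Vt Q w y) A| ≤ ε * (St P w y Om).card := by
  obtain ⟨R, η0, hη0, htv⟩ := law_tv Λ ε hΛ hε
  obtain ⟨G, hG⟩ : ∃ G : ℝ, G = (1 + Λ) ^ R := ⟨_, rfl⟩
  have hG1 : 1 ≤ G := by rw [hG]; exact one_le_pow₀ (by linarith)
  obtain ⟨δ, hδ⟩ : ∃ δ : ℝ, δ = min (η0 / (4 * (G + 1))) (1 / 2) := ⟨_, rfl⟩
  have hδ0 : 0 < δ := by rw [hδ]; positivity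
  have hδ1 : δ ≤ 1 / 2 := by rw [hδ]; exact min_le_right _ _
  have hδG : δ * (G + 1) ≤ η0 / 4 := by
    have : δ ≤ η0 / (4 * (G + 1)) := by rw [hδ]; exact min_le_left _ _
    rw [le_div_iff₀ (by positivity)] at this
    linarith
  obtain ⟨m, hm⟩ := exists_nat_ge (4 * G * ((((1 + R) * c : ℕ) : ℝ) ^ 2 * 2) / δ)
  obtain ⟨η3, hη3⟩ : ∃ η3 : ℝ, η3 = δ / (4 * G * (R ^ 2 + 1)) := ⟨_, rfl⟩
  have hη30 : 0 < η3 := by rw [hη3]; positivity
  have hη3G : 4 * (G * ((R ^ 2 + 1) * η3)) = δ := by rw [hη3]; field_simp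
  refine ⟨R, max (max 1 m) (2 * ((1 + R) * c)), η3, δ, by omega, hη30, hδ0, ?_⟩
  intro w hw
  have hw1 : 1 ≤ w := by omega
  have hwm : m ≤ w := by omega
  have hwR : 2 * ((1 + R) * c) ≤ w := by omega
  have hw0 : (0 : ℝ) < w := by exact_mod_cast hw1
  have hwr : 4 * (G * ((((1 + R) * c : ℕ) : ℝ) ^ 2 * 2 / w)) ≤ δ := by
    have h1 : 4 * G * ((((1 + R) * c : ℕ) : ℝ) ^ 2 * 2) / δ ≤ w := hm.trans (by exact_mod_cast hwm)
    rw [div_le_iff₀ hδ0] at h1
    rw [← mul_div_assoc, ← mul_div_assoc, div_le_iff₀ hw0]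
    linarith
  intro P Q y a B Om hP hQ hwy hOm hFL hVt hlam hS hSp
  obtain ⟨x, hx⟩ : ∃ x, x = (Ba Q w a B).card * Vt Q w y := ⟨_, rfl⟩
  rw [← hx] at hlam
  rw [← hx]
  have hVt0 := Vt_nonneg Q w y
  have hVp0 := Vt_nonneg P w y
  have hx0 : 0 ≤ x := by rw [hx]; positivity
  obtain ⟨M, hM⟩ : ∃ M : ℝ, M = Om.card * Vt P w y := ⟨_, rfl⟩
  have hM0 : 0 ≤ M := by rw [hM]; positivity
  obtain ⟨N, hN⟩ : ∃ N : ℝ, N = (St P w y Om).card := ⟨_, rfl⟩
  have hN0 : 0 ≤ N := by rw [hN]; positivity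
  have hc1 : c ≤ (1 + R) * c := Nat.le_mul_of_pos_left c (by omega)
  have hNM : |N - M| ≤ δ * M := by
    rw [hN, hM]
    exact hFL P (fun p n => hP.per p n) (fun p hp _ => (hP.few p hp).trans hc1)
  have hMN : M ≤ 2 * N := by
    have := (abs_le.1 hNM).1
    nlinarith
  -- the sums over the sets of shifts
  have hT : ∀ k ≤ R, |∑ J ∈ powersetCard k (Ba Q w a B), Vt (PJ P Q J) w y -
      Vt P w y * (x ^ k / k.factorial)| ≤ Vt P w y * δ := by
    intro k hk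
    have h1 := sing_cls2 P Q c hP hQ w y k R hk hw1 hwR (Ba Q w a B)
    rw [← hx] at h1
    refine h1.trans ?_
    apply mul_le_mul_of_nonneg_left _ hVp0
    have h2 : (1 + x) ^ R ≤ G := by
      rw [hG]
      exact pow_le_pow_left₀ (by linarith) (by linarith) R
    have h3 : (((1 + R) * c : ℕ) : ℝ) ^ 2 * 2 / w + R ^ 2 * Vt Q w y + Vt Q w y ^ 2 *
        Sg Q (Kx R c) w y (Ba Q w a B) + Vt Q w y * Sp P Q (Kx R c) w y (Ba Q w a B) ≤
        (((1 + R) * c : ℕ) : ℝ) ^ 2 * 2 / w + (R ^ 2 + 1) * η3 + η3 := by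
      have h4 : (R : ℝ) ^ 2 * Vt Q w y ≤ R ^ 2 * η3 := mul_le_mul_of_nonneg_left hVt (by positivity)
      linarith
    have h5 : 0 ≤ (((1 + R) * c : ℕ) : ℝ) ^ 2 * 2 / w + (R ^ 2 + 1) * η3 + η3 := by positivity
    have h6 : G * η3 ≤ G * ((R ^ 2 + 1) * η3) := by
      apply mul_le_mul_of_nonneg_left _ (by linarith)
      have : (0 : ℝ) ≤ (R : ℝ) ^ 2 * η3 := by positivity
      linarith
    calc _ ≤ (1 + x) ^ R * ((((1 + R) * c : ℕ) : ℝ) ^ 2 * 2 / w + (R ^ 2 + 1) * η3 + η3) :=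
          mul_le_mul_of_nonneg_left h3 (by positivity)
      _ ≤ G * ((((1 + R) * c : ℕ) : ℝ) ^ 2 * 2 / w + (R ^ 2 + 1) * η3 + η3) :=
          mul_le_mul_of_nonneg_right h2 h5
      _ ≤ δ := by
        rw [mul_add, mul_add]
        linarith
  unfold Po
  rw [← hN]
  have key := htv (St P w y Om) (NB Q y B) x hx0 hlam (by
    intro k hk
    rw [moment_cls2 P Q c hQ w y a k B hwy Om hOm]
    obtain ⟨T, hTT⟩ : ∃ T, T = ∑ J ∈ powersetCard k (Ba Q w a B), Vt (PJ P Q J) w y := ⟨_, rfl⟩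
    have hT0 : 0 ≤ T := by
      rw [hTT]
      exact sum_nonneg fun J _ => Vt_nonneg _ w y
    have h1 : |∑ J ∈ powersetCard k (Ba Q w a B), ((St (PJ P Q J) w y Om).card : ℝ) -
        Om.card * T| ≤ δ * (Om.card * T) := by
      rw [hTT, mul_sum, mul_sum, ← Finset.sum_sub_distrib]
      refine (Finset.abs_sum_le_sum_abs _ _).trans (Finset.sum_le_sum fun J hJ => ?_)
      rw [mem_powersetCard] at hJ
      have hper := perB_PJ P Q c hP hQ J
      exact hFL (PJ P Q J) hper.per (fun p hp _ => (hper.few p hp).trans (by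
        rw [hJ.2]
        exact Nat.mul_le_mul_right _ (by omega)))
    have h2 := hT k hk
    rw [← hTT] at h2
    obtain ⟨X, hX⟩ : ∃ X : ℝ, X = x ^ k / k.factorial := ⟨_, rfl⟩
    rw [← hX] at h2
    have hX0 : 0 ≤ X := by rw [hX]; positivity
    have hXG : X ≤ G := by
      have hfac : (1 : ℝ) ≤ k.factorial := by exact_mod_cast Nat.factorial_pos k
      calc X = x ^ k / k.factorial := hX
        _ ≤ x ^ k := div_le_self (by positivity) hfac
        _ ≤ (1 + Λ) ^ k := pow_le_pow_left₀ hx0 (by linarith) k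
        _ ≤ (1 + Λ) ^ R := pow_le_pow_right₀ (by linarith) hk
        _ = G := hG.symm
    have hO0 : (0 : ℝ) ≤ Om.card := Nat.cast_nonneg _
    have hOT : (Om.card : ℝ) * T ≤ M * (G + 1) := by
      have h3 := (abs_le.1 h2).2
      have h4 : T ≤ Vt P w y * (G + 1) := by
        have : Vt P w y * X ≤ Vt P w y * G := mul_le_mul_of_nonneg_left hXG hVp0
        have h5 : Vt P w y * δ ≤ Vt P w y * 1 := mul_le_mul_of_nonneg_left (by linarith) hVp0
        linarith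
      calc (Om.card : ℝ) * T ≤ Om.card * (Vt P w y * (G + 1)) := mul_le_mul_of_nonneg_left h4 hO0
        _ = M * (G + 1) := by rw [hM]; ring
    have h3 : |Om.card * T - M * X| ≤ M * δ := by
      have e : Om.card * T - M * X = Om.card * (T - Vt P w y * X) := by rw [hM]; ring
      rw [e, abs_mul, abs_of_nonneg hO0]
      calc (Om.card : ℝ) * |T - Vt P w y * X| ≤ Om.card * (Vt P w y * δ) :=
            mul_le_mul_of_nonneg_left h2 hO0
        _ = M * δ := by rw [hM]; ring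
    have h4 : |M * X - N * X| ≤ δ * M * G := by
      rw [← sub_mul, abs_mul, abs_of_nonneg hX0, abs_sub_comm]
      exact mul_le_mul hNM hXG hX0 (by positivity)
    have h5 : δ * (Om.card * T) ≤ δ * (M * (G + 1)) := mul_le_mul_of_nonneg_left hOT hδ0.le
    have h6 := abs_sub_le (∑ J ∈ powersetCard k (Ba Q w a B), ((St (PJ P Q J) w y Om).card : ℝ))
      (Om.card * T) (M * X)
    have h7 := abs_sub_le (∑ J ∈ powersetCard k (Ba Q w a B), ((St (PJ P Q J) w y Om).card : ℝ))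
      (M * X) (N * X)
    rw [← hN, ← hX]
    have h8 : δ * (M * (G + 1)) + M * δ + δ * M * G = 2 * (δ * (G + 1)) * M := by ring
    have h9 : 2 * (δ * (G + 1)) * M ≤ 2 * (η0 / 4) * (2 * N) := by
      apply mul_le_mul (by linarith) hMN hM0 (by positivity)
    linarith)
  intro A
  have h := key A
  rw [← hN] at h
  exact h

end Pool.Agent.Q263.PK
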