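import Pool.Agent.Q263.PK.Unif

set_option autoImplicit false

/-!
# Values of polynomials: periodicity and number of roots
-/

namespace Pool.Agent.Q263.PK.Gen

open Polynomial Finset

lemma perG_poly (f : ℤ[X]) : PerG (fun m => f.eval (m : ℤ)) := by
  intro p m _
  have h1 : ((m % p : ℕ) : ℤ) = (m : ℤ) - p * ((m / p : ℕ) : ℤ) := by
    have h2 : ((p * (m / p) + m % p : ℕ) : ℤ) = m := by rw [Nat.div_add_mod]
    push_cast at h2 ⊢
    linarith
  have h2 : (p : ℤ) ∣ f.eval (m : ℤ) - f.eval ((m % p : ℕ) : ℤ) := by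
    refine dvd_trans ?_ (sub_dvd_eval_sub _ _ _)
    rw [h1]
    exact ⟨((m / p : ℕ) : ℤ), by ring⟩
  constructor
  · intro h
    have h3 := dvd_sub h h2
    rwa [sub_sub_cancel] at h3
  · intro h
    have h3 := dvd_add h2 h
    rwa [sub_add_cancel] at h3

open Classical in
lemma rho_poly_le (f : ℤ[X]) (p : ℕ) (hp : p.Prime) (hf : ∃ i, ¬ (p : ℤ) ∣ f.coeff i) :
    rho (fun m => f.eval (m : ℤ)) p ≤ f.natDegree := by
  have : Fact p.Prime := ⟨hp⟩
  obtain ⟨i, hi⟩ := hf
  have hne : f.map (Int.castRingHom (ZMod p)) ≠ 0 := by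
    intro h
    apply hi
    have h1 := congrArg (fun g : (ZMod p)[X] => g.coeff i) h
    simp only [coeff_map, coeff_zero] at h1
    exact (ZMod.intCast_zmod_eq_zero_iff_dvd _ _).1 h1
  have h1 : rho (fun m => f.eval (m : ℤ)) p ≤ (f.map (Int.castRingHom (ZMod p))).roots.toFinset.card := by
    unfold rho
    apply Finset.card_le_card_of_injOn (fun a : ℕ => (a : ZMod p))
    · intro a ha
      have ha' := Finset.mem_filter.1 (Finset.mem_coe.1 ha)
      have h3 : IsRoot (f.map (Int.castRingHom (ZMod p))) (a : ZMod p) := by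
        rw [IsRoot.def, eval_map]
        have h2 : ((f.eval (a : ℤ) : ℤ) : ZMod p) = 0 :=
          (ZMod.intCast_zmod_eq_zero_iff_dvd _ _).2 ha'.2
        have h4 : eval₂ (Int.castRingHom (ZMod p)) ((Int.castRingHom (ZMod p)) (a : ℤ)) f =
            (Int.castRingHom (ZMod p)) (f.eval (a : ℤ)) := by
          rw [eval₂_at_apply]
        rw [eq_intCast, eq_intCast, h2] at h4
        rw [← h4]
        norm_cast
      rw [Finset.mem_coe, Multiset.mem_toFinset, mem_roots hne]
      exact h3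
    · intro a ha c hc h
      have ha' := Finset.mem_range.1 (Finset.mem_filter.1 (Finset.mem_coe.1 ha)).1
      have hc' := Finset.mem_range.1 (Finset.mem_filter.1 (Finset.mem_coe.1 hc)).1
      have h5 := congrArg ZMod.val h
      simp only at h5
      rwa [ZMod.val_natCast_of_lt ha', ZMod.val_natCast_of_lt hc'] at h5
  exact h1.trans ((Multiset.toFinset_card_le _).trans ((card_roots' _).trans natDegree_map_le))

lemma rho_monic_le (f : ℤ[X]) (hf : f.Monic) (p : ℕ) (hp : p.Prime) :
    rho (fun m => f.eval (m : ℤ)) p ≤ f.natDegree := by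
  apply rho_poly_le f p hp
  refine ⟨f.natDegree, ?_⟩
  rw [hf.coeff_natDegree]
  intro h
  have h1 : p ∣ 1 := by exact_mod_cast h
  exact hp.one_lt.ne' (Nat.dvd_one.1 h1)

end Pool.Agent.Q263.PK.Gen
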