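import Pool.Agent.Q263.PK.Law
import Pool.Agent.Q263.SW.Asy

set_option autoImplicit false

/-!
# The conditional Poisson law along the integers with restricted digits
-/

namespace Pool.Agent.Q263.PK

open Finset Filter Pool.Agent.H373R2.T7 Pool.Agent.W123.RP Pool.Agent.W123.RU Pool.Agent.TH464.PO
open Pool.Agent.Q236.CP Pool.Agent.Q236.ML
open Pool.Agent.Q263.PL
open Pool.Agent.Q263.MD (Dig)
open Pool.Agent.Q263.SV (Pr mem_Pr)
open Pool.Agent.Q263.SW (Sr Pd card_all delta cls)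

open Classical in
/-- the fundamental lemma for a disjoint union -/
lemma FL_fib (Om : Finset ℕ) (w y κ : ℕ) (δ : ℝ) (f : ℕ → ℕ) (I : Finset ℕ) (hf : ∀ n ∈ Om, f n ∈ I)
    (h : ∀ i ∈ I, FL (Om.filter (fun n => f n = i)) w y κ δ) : FL Om w y κ δ := by
  intro Q hper hfew
  have h1 : ((St Q w y Om).card : ℝ) = ∑ i ∈ I, ((St Q w y (Om.filter (fun n => f n = i))).card : ℝ) := by
    rw [card_eq_sum_card_fiberwise (s := St Q w y Om) (t := I) (f := f) (fun n hn => by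
      have hn' : n ∈ St Q w y Om := hn
      unfold St at hn'
      rw [mem_filter] at hn'
      exact hf n hn'.1)]
    push_cast
    apply sum_congr rfl
    intro i _
    unfold St
    rw [filter_filter, filter_filter]
    congr 2
    apply filter_congr
    intro n _
    tauto
  have h2 : (Om.card : ℝ) = ∑ i ∈ I, ((Om.filter (fun n => f n = i)).card : ℝ) := by
    rw [card_eq_sum_card_fiberwise (s := Om) (t := I) (f := f) hf]
    push_cast
    rfl
  rw [h1, h2, sum_mul, ← sum_sub_distrib, mul_sum]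
  refine (abs_sum_le_sum_abs _ _).trans (sum_le_sum fun i hi => ?_)
  exact h i hi Q hper hfew

lemma FL_empty (w y κ : ℕ) (δ : ℝ) : FL ∅ w y κ δ := by
  intro Q _ _
  have : St Q w y ∅ = ∅ := by
    unfold St
    rw [filter_empty]
  rw [this]
  simp

/-- the primes `≤ w` which do not divide `b` -/
def Tb (b w : ℕ) : Finset ℕ := (range (w + 1)).filter (fun p => p.Prime ∧ ¬ p ∣ b)

lemma mem_Tb {b w p : ℕ} : p ∈ Tb b w ↔ p ≤ w ∧ p.Prime ∧ ¬ p ∣ b := by
  unfold Tb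
  rw [mem_filter, mem_range, Nat.lt_succ_iff]

/-- the product of the primes `≤ w` which do not divide `b` -/
def Qb (b w : ℕ) : ℕ := ∏ p ∈ Tb b w, p

lemma Qb_pos (b w : ℕ) : 1 ≤ Qb b w := by
  unfold Qb
  exact Finset.prod_pos fun p hp => (mem_Tb.1 hp).2.1.pos

lemma dvd_Qb {b w p : ℕ} (h : p ∈ Tb b w) : p ∣ Qb b w := by
  unfold Qb
  exact Finset.dvd_prod_of_mem (fun p => p) h

lemma cop_Qb (b w n : ℕ) (h : ∀ p ∈ Tb b w, ¬ p ∣ n) : Nat.Coprime n (Qb b w) := by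
  unfold Qb
  apply Nat.Coprime.prod_right
  intro p hp
  exact ((Nat.Prime.coprime_iff_not_dvd (mem_Tb.1 hp).2.1).2 (h p hp)).symm

lemma mod_Qb (b w m a : ℕ) (h : ∀ p ∈ Tb b w, m % p = a % p) : m ≡ a [MOD Qb b w] := by
  have h1 : Qb b w ∣ ((m : ℤ) - a).natAbs := by
    unfold Qb
    apply Finset.prod_primes_dvd
    · intro p hp
      exact (mem_Tb.1 hp).2.1.prime
    · intro p hp
      have h2 : m ≡ a [MOD p] := h p hp
      have h3 := (Nat.modEq_iff_dvd.1 h2.symm)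
      exact Int.natCast_dvd.1 h3
  have h2 : ((Qb b w : ℕ) : ℤ) ∣ (m : ℤ) - a := Int.natCast_dvd.2 h1
  exact (Nat.modEq_iff_dvd.2 h2).symm

open Classical in
/-- **the fundamental lemma in all classes modulo the small primes** -/
theorem FL_dig {b : ℕ} (hb : 2 ≤ b) (κ : ℕ) (δ : ℝ) (hδ : 0 < δ) : ∃ K₀ L : ℕ, 1 ≤ L ∧ ∀ w : ℕ, K₀ ≤ w →
    ∃ k₀ : ℕ, ∀ k : ℕ, k₀ ≤ k → ∀ D : Fin k → Finset ℕ,
      (∀ i, ∀ d ∈ D i, d < b) → (∀ i, ∃ c ∈ D i, ∃ c' ∈ D i, c < c' ∧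
        ∀ p : ℕ, p.Prime → p ∣ c' - c → p ∣ b) → ∀ y : ℕ, y ^ L ≤ b ^ k →
      ∀ a : ℕ, FL (PL.cl w (Dig b k D) a) w y κ δ := by
  obtain ⟨K₀, L, hL, hs⟩ := Pool.Agent.Q263.SW.sieve hb κ δ hδ
  refine ⟨K₀ + b, L, hL, ?_⟩
  intro w hw
  obtain ⟨Q, hQdef⟩ : ∃ Q, Q = Qb b w := ⟨_, rfl⟩
  have hQ : 1 ≤ Q := by rw [hQdef]; exact Qb_pos b w
  have : NeZero Q := ⟨by omega⟩
  have hQ0 : (0 : ℝ) < Q := by exact_mod_cast hQ
  have hbQ : Nat.Coprime b Q := by
    rw [hQdef]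
    exact cop_Qb b w b fun p hp => (mem_Tb.1 hp).2.2
  obtain ⟨δ', hδ0, hδ1, hδ'⟩ := delta Q
  have hb0 : (0 : ℝ) < b := by exact_mod_cast (by omega : 0 < b)
  have hrho : |1 - δ' / b| < 1 := by
    have h1 : δ' / b ≤ 1 := by
      rw [div_le_one hb0]
      have : (2 : ℝ) ≤ b := by exact_mod_cast hb
      linarith
    have h2 : 0 < δ' / b := by positivity
    rw [abs_lt]
    constructor <;> linarith
  obtain ⟨k1, hk1⟩ := hs w (by omega) (b * Q) (Nat.mul_pos (by omega) hQ) (by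
    intro p hp hpq
    rcases (hp.dvd_mul).1 hpq with h | h
    · exact (Nat.le_of_dvd (by omega) h).trans (by omega)
    · rw [hQdef, Qb, hp.prime.dvd_finsetProd_iff] at h
      obtain ⟨a, ha, hpa⟩ := h
      rw [(Nat.prime_dvd_prime_iff_eq hp (mem_Tb.1 ha).2.1).1 hpa]
      exact (mem_Tb.1 ha).1) (1 / (2 * (b * Q))) (by positivity)
  obtain ⟨k2, hk2⟩ := exists_pow_lt_of_lt_one (show 0 < 1 / (2 * (Q : ℝ)) by positivity) hrho
  refine ⟨k1 + k2 + 1, ?_⟩
  intro k hk D hD hpair y hy a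
  have hk0 : 0 < k := by omega
  have hcard2 : ∀ i, 2 ≤ (D i).card := by
    intro i
    obtain ⟨c, hc, c', hc', hcc, _⟩ := hpair i
    exact Finset.one_lt_card.2 ⟨c, hc, c', hc', hcc.ne⟩
  have hI : ∀ i, ∃ c ∈ D i, ∃ c' ∈ D i, c < c' ∧ Nat.Coprime (c' - c) Q := by
    intro i
    obtain ⟨c, hc, c', hc', hcc, h⟩ := hpair i
    refine ⟨c, hc, c', hc', hcc, ?_⟩
    rw [hQdef]
    exact cop_Qb b w _ fun p hp h2 => (mem_Tb.1 hp).2.2 (h p (mem_Tb.1 hp).2.1 h2)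
  obtain ⟨P, hP⟩ : ∃ P, P = Pd D := ⟨_, rfl⟩
  have hP0 : (0 : ℝ) < P := by
    have : 0 < P := by
      rw [hP]
      exact Finset.prod_pos fun i _ => by have := hcard2 i; omega
    exact_mod_cast this
  -- the size of the classes
  have hcl : ∀ r : ℕ, r % b ∈ D ⟨0, hk0⟩ →
      1 / (2 * ((b : ℝ) * Q)) * (Dig b k D).card ≤ ((Sr b k D (b * Q) r).card : ℝ) := by
    intro r hr
    have h0 := cls hk0 D hD hQ hbQ hδ1 hδ0 hδ' hI r hr
    rw [← hP] at h0
    have h1 : |1 - δ' / b| ^ (k - 1) ≤ 1 / (2 * (Q : ℝ)) :=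
      (pow_le_pow_of_le_one (abs_nonneg _) hrho.le (by omega : k2 ≤ k - 1)).trans hk2.le
    have h2 : (P : ℝ) * |1 - δ' / b| ^ (k - 1) ≤ P * (1 / (2 * (Q : ℝ))) :=
      mul_le_mul_of_nonneg_left h1 hP0.le
    have h3 := (abs_le.1 h0).1
    have h4 : ((Dig b k D).card : ℝ) ≤ b * P := by
      rw [card_all hk0 D hD, ← hP]
      push_cast
      apply mul_le_mul_of_nonneg_right _ hP0.le
      have : (D ⟨0, hk0⟩).card ≤ b := by
        have : D ⟨0, hk0⟩ ⊆ Finset.range b := fun d hd => Finset.mem_range.2 (hD _ d hd)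
        simpa using Finset.card_le_card this
      exact_mod_cast this
    have h5 : (P : ℝ) * (1 / (2 * (Q : ℝ))) = P / Q / 2 := by field_simp
    calc 1 / (2 * ((b : ℝ) * Q)) * (Dig b k D).card ≤ 1 / (2 * ((b : ℝ) * Q)) * (b * P) :=
          mul_le_mul_of_nonneg_left h4 (by positivity)
      _ = P / Q / 2 := by field_simp
      _ ≤ _ := by linarith
  have hPr : Pr w y = (pz y).filter (fun p => w < p) := by
    ext p
    rw [mem_Pr, mem_filter, mem_pz]
    tauto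
  have hFLr : ∀ r : ℕ, r % b ∈ D ⟨0, hk0⟩ → FL (Sr b k D (b * Q) r) w y κ δ := by
    intro r hr Q' hper hfew
    have h := hk1 k (by omega) D hD hcard2 y hy r (hcl r hr) (fun p => (range p).filter (fun r => Q' p r)) (by
      intro p hp hwp _
      refine ⟨fun r hr => by rw [mem_filter, mem_range] at hr; exact hr.1, ?_⟩
      have := hfew p hp hwp
      unfold nuB at this
      convert this)
    have e1 : ∏ p ∈ Pr w y, (1 - ((((range p).filter (fun r => Q' p r)).card : ℕ) : ℝ) / p) = Vt Q' w y := by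
      unfold Vt nuB
      rw [hPr]
    have e2 : (Sr b k D (b * Q) r).filter (fun m => ∀ p ∈ Pr w y, m % p ∉ (range p).filter (fun r => Q' p r)) =
        St Q' w y (Sr b k D (b * Q) r) := by
      unfold St
      apply filter_congr
      intro m _
      rw [hPr]
      constructor
      · intro h p hp hwp hq
        have hpp := (mem_pz.1 hp).2
        exact h p (mem_filter.2 ⟨hp, hwp⟩) (mem_filter.2 ⟨mem_range.2 (Nat.mod_lt _ hpp.pos),
          (hper p m).1 hq⟩)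
      · intro h p hp hq
        rw [mem_filter] at hp hq
        exact h p hp.1 hp.2 ((hper p m).2 hq.2)
    rw [e1, e2] at h
    exact h
  refine FL_fib _ w y κ δ (fun n => n % b) (D ⟨0, hk0⟩) (fun n hn => ?_) (fun d hd => ?_)
  · unfold PL.cl at hn
    rw [mem_filter] at hn
    have h1 := hn.1
    unfold Dig at h1
    rw [mem_filter] at h1
    have h0 := h1.2 ⟨0, hk0⟩
    simp only [pow_zero, Nat.div_one] at h0
    exact h0
  · have hdb : d < b := hD _ d hd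
    by_cases hcomp : ∀ p ∈ pz w, p ∣ b → d % p = a % p
    · obtain ⟨r, hr1, hr2⟩ := Nat.chineseRemainder hbQ d a
      have hr1' : r % b = d := by rw [hr1, Nat.mod_eq_of_lt hdb]
      have e : (PL.cl w (Dig b k D) a).filter (fun n => n % b = d) = Sr b k D (b * Q) r := by
        unfold PL.cl Sr
        rw [filter_filter]
        apply filter_congr
        intro m _
        constructor
        · rintro ⟨h1, h2⟩
          have h3 : m ≡ r [MOD b] := by
            rw [Nat.ModEq, h2, hr1']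
          have h4 : m ≡ r [MOD Q] := by
            refine Nat.ModEq.trans ?_ hr2.symm
            rw [hQdef]
            apply mod_Qb
            intro p hp
            exact h1 p (mem_pz.2 ⟨(mem_Tb.1 hp).1, (mem_Tb.1 hp).2.1⟩)
          exact (Nat.modEq_and_modEq_iff_modEq_mul hbQ).1 ⟨h3, h4⟩
        · intro h
          have h' : m ≡ r [MOD b * Q] := h
          obtain ⟨h3, h4⟩ := (Nat.modEq_and_modEq_iff_modEq_mul hbQ).2 h'
          have h5 : m % b = d := by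
            have : m % b = r % b := h3
            rw [this, hr1']
          refine ⟨fun p hp => ?_, h5⟩
          by_cases hpb : p ∣ b
          · rw [← hcomp p hp hpb, ← h5, Nat.mod_mod_of_dvd _ hpb]
          · have hpT : p ∈ Tb b w := mem_Tb.2 ⟨(mem_pz.1 hp).1, (mem_pz.1 hp).2, hpb⟩
            have hpQ : p ∣ Q := by rw [hQdef]; exact dvd_Qb hpT
            have h6 : m ≡ a [MOD Q] := h4.trans hr2
            exact h6.of_dvd hpQ
      rw [e]
      exact hFLr r (by rw [hr1']; exact hd)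
    · push Not at hcomp
      obtain ⟨p, hp, hpb, hne⟩ := hcomp
      have e : (PL.cl w (Dig b k D) a).filter (fun n => n % b = d) = ∅ := by
        unfold PL.cl
        rw [filter_filter, filter_eq_empty_iff]
        rintro m _ ⟨h1, h2⟩
        apply hne
        rw [← h1 p hp, ← h2, Nat.mod_mod_of_dvd _ hpb]
      rw [e]
      exact FL_empty w y κ δ

open Classical in
/-- **The conditional Poisson law along the integers with restricted digits.** -/
theorem law_dig2 {b : ℕ} (hb : 2 ≤ b) (c : ℕ) (x0 ε : ℝ) (hx0 : 0 ≤ x0) (hε : 0 < ε) :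
    ∃ w0 : ℕ, 2 ≤ w0 ∧ ∀ w : ℕ, w0 ≤ w → ∀ M1 : ℝ, 0 ≤ M1 →
      ∃ (L k₀ T0 : ℕ) (η' v0 : ℝ), 1 ≤ L ∧ 0 < η' ∧ 0 < v0 ∧
      ∀ k : ℕ, k₀ ≤ k → ∀ D : Fin k → Finset ℕ, (∀ i, ∀ d ∈ D i, d < b) →
      (∀ i, ∃ c ∈ D i, ∃ c' ∈ D i, c < c' ∧ ∀ p : ℕ, p.Prime → p ∣ c' - c → p ∣ b) →
      ∀ (y T : ℕ) (P Q : ℕ → ℕ → Prop), y ^ L ≤ b ^ k → PerB P c → PerB Q c →
      (∀ p : ℕ, p.Prime → nuB Q p < p) → w ≤ y → T0 ≤ T → T * Vq Q y ≤ x0 → Vq Q y ≤ v0 →
      (∀ t ∈ Icc 1 T, ((((pz y).filter (fun p : ℕ => T < p ∧ CoG Q p t)).card : ℕ) : ℝ) ≤ η' * T) →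
      (∀ t ∈ Icc 1 T, ((((pz y).filter (fun p : ℕ => T < p ∧ CoP P Q p t)).card : ℕ) : ℝ) ≤ η' * T) →
      ∀ (B : Finset ℕ) (β : ℝ), B ⊆ Icc 1 T → 0 ≤ β → β ≤ T → RegB Q w B β M1 →
      ∀ A : Finset ℕ, |(((Fx P y (Dig b k D)).filter (fun n => NB Q y B n ∈ A)).card : ℝ) -
        (Fx P y (Dig b k D)).card * Po (β * Vq Q y) A| ≤ ε * (Fx P y (Dig b k D)).card := by
  obtain ⟨R, w1, δ, hw12, hδ, hlaw⟩ := law_gen2 c x0 ε hx0 hε
  obtain ⟨K₀, L, hL, hs⟩ := FL_dig hb ((1 + R) * c) δ hδ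
  refine ⟨max w1 K₀, by omega, ?_⟩
  intro w hw M1 hM1
  obtain ⟨T0, η', v0, hη', hv0, hlaw'⟩ := hlaw w (by omega) M1 hM1
  obtain ⟨k₀, hk₀⟩ := hs w (by omega)
  refine ⟨L, k₀, T0, η', v0, hL, hη', hv0, ?_⟩
  intro k hk D hD hpair y T P Q hyL hP hQ hadm hwy hT hTx hVv hlarge hlargeP B β hB hβ0 hβT hreg A
  exact hlaw' (Dig b k D) y T P Q hP hQ hadm hwy (hk₀ k hk D hD hpair y hyL) hT hTx hVv hlarge hlargeP
    B β hB hβ0 hβT hreg A

end Pool.Agent.Q263.PK
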