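import Pool.Agent.Q263.PK.Poly

set_option autoImplicit false

/-!
# Count and conditional law for the values of integer valued functions given by systems of polynomials
-/

namespace Pool.Agent.Q263.PK.Gen

open Polynomial Finset Filter Pool.Agent.H373R2.T7 Pool.Agent.W123.RP Pool.Agent.W123.RU
  Pool.Agent.W123.RU.Poly Pool.Agent.TH464.PO
open Pool.Agent.Q263.PL
open Pool.Agent.Q263.PK
open Pool.Agent.Q263.MD (Dig)
open Pool.Agent.Q263.SW (Xt Pd asy card_all)

def Restricted (b k : ℕ) (D : Fin k → Finset ℕ) : Finset ℕ :=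
  (Finset.range (b ^ k)).filter (fun n => ∀ i : Fin k, n / b ^ (i : ℕ) % b ∈ D i)

def DigitSets (b k : ℕ) (D : Fin k → Finset ℕ) : Prop :=
  ∀ i, (∀ d ∈ D i, d < b) ∧ ∃ c ∈ D i, ∃ c' ∈ D i, c < c' ∧
    ∀ p : ℕ, p.Prime → p ∣ c' - c → p ∣ b

def Rough (G : ℕ → ℤ) (y n : ℕ) : Prop := ∀ p : ℕ, p.Prime → p ≤ y → ¬ (p : ℤ) ∣ G n

open Classical in
noncomputable def Start (b k : ℕ) (D : Fin k → Finset ℕ) (G : ℕ → ℤ) (y : ℕ) : Finset ℕ :=
  (Restricted b k D).filter (fun n => Rough G y n)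

open Classical in
noncomputable def next (W : ℕ → ℤ) (y T n : ℕ) : ℕ :=
  ((Finset.Ioc n (n + T)).filter (fun t => Rough W y t)).card

open Classical in
noncomputable def rho (G : ℕ → ℤ) (p : ℕ) : ℕ := ((range p).filter (fun r => (p : ℤ) ∣ G r)).card

noncomputable def dens (W : ℕ → ℤ) (y : ℕ) : ℝ :=
  ∏ p ∈ (Finset.Icc 1 y).filter Nat.Prime, (1 - (rho W p : ℝ) / (p : ℝ))

def lastDigits (b k : ℕ) (D : Fin k → Finset ℕ) (G : ℕ → ℤ) : ℕ :=
  (((Finset.univ : Finset (Fin k)).filter (fun i : Fin k => (i : ℕ) = 0)).biUnion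
    (fun i => (D i).filter (fun d : ℕ => Int.gcd (G d) b = 1))).card

def otherDigits (k : ℕ) (D : Fin k → Finset ℕ) : ℕ :=
  ∏ i ∈ (Finset.univ : Finset (Fin k)).filter (fun i : Fin k => (i : ℕ) ≠ 0), (D i).card

noncomputable def mainTerm (b k : ℕ) (D : Fin k → Finset ℕ) (G : ℕ → ℤ) (y : ℕ) : ℝ :=
  (lastDigits b k D G : ℝ) * otherDigits k D *
    ∏ p ∈ (Finset.Icc 1 y).filter (fun p => p.Prime ∧ ¬ p ∣ b), (1 - (rho G p : ℝ) / (p : ℝ))

noncomputable def poisson (x : ℝ) (A : Finset ℕ) : ℝ :=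
  ∑ j ∈ A, Real.exp (-x) * x ^ j / (j.factorial : ℝ)

open Classical in
theorem law {b : ℕ} (hb : 2 ≤ b) {ι ι' : Type} [Fintype ι] [Fintype ι'] [Nonempty ι]
    (g : ι' → ℤ[X]) (hg : Sys g) (f : ι → ℤ[X]) (hf : Sys f) (hT : NoTr f) (hT2 : NoTr2 g f)
    (G W : ℕ → ℤ) (hG : ∀ p m : ℕ, p.Prime → (Q g p m ↔ (p : ℤ) ∣ G m))
    (hW : ∀ p m : ℕ, p.Prime → (Q f p m ↔ (p : ℤ) ∣ W m)) (Λ ε : ℝ) (hε : 0 < ε) :
    ∃ L y₀ k₀ : ℕ, 1 ≤ L ∧ ∀ k : ℕ, k₀ ≤ k → ∀ D : Fin k → Finset ℕ, DigitSets b k D →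
      ∀ y : ℕ, y₀ ≤ y → y ^ L ≤ b ^ k →
      |((Start b k D G y).card : ℝ) - mainTerm b k D G y| ≤ ε * mainTerm b k D G y ∧
      ∀ T : ℕ, T * dens W y ≤ Λ → ∀ A : Finset ℕ,
        |(((Start b k D G y).filter (fun n => next W y T n ∈ A)).card : ℝ) -
          (Start b k D G y).card * poisson (T * dens W y) A| ≤ ε * (Start b k D G y).card := by
  obtain ⟨L, y₀, k₀, hL, hmain⟩ := poly_win2 hb g hg f hf hT hT2 Λ ε hε
  obtain ⟨c, _, hQ⟩ := Poly.exists_c _ hg
  obtain ⟨L', k₀', hL', hlow⟩ := Fx_asy hb c ε hε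
  refine ⟨L + L', max y₀ (b + 1), max k₀ k₀' + 1, by omega, ?_⟩
  intro k hk D hD y hy hyL
  have hk0 : 0 < k := by omega
  have hy1 : 1 ≤ y := by omega
  have hby : b ≤ y := by omega
  have hyL1 : y ^ L ≤ b ^ k := (Nat.pow_le_pow_right hy1 (by omega)).trans hyL
  have hyL2 : y ^ L' ≤ b ^ k := (Nat.pow_le_pow_right hy1 (by omega)).trans hyL
  have hSf : ∀ m : ℕ, Sf (Q g) y m ↔ Rough G y m := by
    intro m
    unfold Sf Rough
    constructor
    · intro h p hp hpy hd
      exact h p (mem_pz.2 ⟨hpy, hp⟩) ((hG p m hp).2 hd)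
    · intro h p hp hd
      exact h p (mem_pz.1 hp).2 (mem_pz.1 hp).1 ((hG p m (mem_pz.1 hp).2).1 hd)
  have hSfW : ∀ m : ℕ, Sf (Q f) y m ↔ Rough W y m := by
    intro m
    unfold Sf Rough
    constructor
    · intro h p hp hpy hd
      exact h p (mem_pz.2 ⟨hpy, hp⟩) ((hW p m hp).2 hd)
    · intro h p hp hd
      exact h p (mem_pz.1 hp).2 (mem_pz.1 hp).1 ((hW p m (mem_pz.1 hp).2).1 hd)
  have hStart : Fx (Q g) y (Dig b k D) = Start b k D G y := by
    unfold Fx Start
    apply Finset.filter_congr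
    intro n _
    exact hSf n
  have hrho : ∀ p : ℕ, p.Prime → nuB (Q g) p = rho G p := by
    intro p hp
    unfold nuB rho
    congr 1
    apply filter_congr
    intro a _
    exact hG p a hp
  have hrhoW : ∀ p : ℕ, p.Prime → nuB (Q f) p = rho W p := by
    intro p hp
    unfold nuB rho
    congr 1
    apply filter_congr
    intro a _
    exact hW p a hp
  have hV : Vq (Q f) y = dens W y := by
    unfold Vq dens
    apply prod_congr rfl
    intro p hp
    rw [hrhoW p (mem_pz.1 hp).2]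
  constructor
  · have h1 := hlow k (by omega) D (fun i => (hD i).1) (fun i => (hD i).2) y hyL2 _ hQ
    have hX : Xt b k D (fun p => (range p).filter (fun r => Q g p r)) y = mainTerm b k D G y := by
      unfold Xt mainTerm
      have e1 : ∏ p ∈ (range (y + 1)).filter (fun p => p.Prime ∧ ¬ p ∣ b),
          (1 - ((((range p).filter (fun r => Q g p r)).card : ℕ) : ℝ) / p) =
          ∏ p ∈ (Finset.Icc 1 y).filter (fun p => p.Prime ∧ ¬ p ∣ b), (1 - (rho G p : ℝ) / (p : ℝ)) := by
        have e0 : (range (y + 1)).filter (fun p => p.Prime ∧ ¬ p ∣ b) =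
            (Finset.Icc 1 y).filter (fun p => p.Prime ∧ ¬ p ∣ b) := by
          ext p
          rw [mem_filter, mem_filter, mem_range, mem_Icc]
          constructor
          · rintro ⟨h4, h5⟩
            exact ⟨⟨h5.1.one_lt.le, by omega⟩, h5⟩
          · rintro ⟨h4, h5⟩
            exact ⟨by omega, h5⟩
        rw [e0]
        apply prod_congr rfl
        intro p hp
        rw [mem_filter] at hp
        have := hrho p hp.2.1
        unfold nuB at this
        rw [this]
      have e2 : ((if hk : 0 < k then D ⟨0, hk⟩ else ∅).filter (fun d => ∀ p : ℕ, p.Prime → p ∣ b →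
          p ≤ y → d % p ∉ (range p).filter (fun r => Q g p r))).card = lastDigits b k D G := by
        unfold lastDigits
        have e3 : (Finset.univ : Finset (Fin k)).filter (fun i : Fin k => (i : ℕ) = 0) = {⟨0, hk0⟩} := by
          ext i
          rw [mem_filter, mem_singleton]
          constructor
          · rintro ⟨_, hi⟩
            exact Fin.ext hi
          · rintro rfl
            exact ⟨mem_univ _, rfl⟩
        rw [e3, singleton_biUnion, dif_pos hk0]
        congr 1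
        apply filter_congr
        intro d _
        constructor
        · intro h2
          by_contra hne
          obtain ⟨p, hp, hpd⟩ := Nat.exists_prime_and_dvd hne
          have h5 : (p : ℤ) ∣ (Int.gcd (G d) b : ℤ) := by exact_mod_cast hpd
          have h3 : (p : ℤ) ∣ (b : ℤ) := h5.trans (Int.gcd_dvd_right _ _)
          have h4 := h5.trans (Int.gcd_dvd_left _ _)
          have h3' : p ∣ b := by exact_mod_cast h3
          apply h2 p hp h3' ((Nat.le_of_dvd (by omega) h3').trans hby)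
          rw [mem_filter, mem_range]
          exact ⟨Nat.mod_lt _ hp.pos, (hQ.per p d).1 ((hG p d hp).2 h4)⟩
        · intro h2 p hp hpb _ hm
          rw [mem_filter] at hm
          have hd := (hG p d hp).1 ((hQ.per p d).2 hm.2)
          have h5 : (p : ℤ) ∣ (Int.gcd (G d) b : ℤ) := Int.dvd_coe_gcd hd (by exact_mod_cast hpb)
          rw [h2] at h5
          have h6 : p ∣ 1 := by exact_mod_cast h5
          exact hp.one_lt.ne' (Nat.dvd_one.1 h6)
      rw [e1, e2]
      have e4 : Pd D = otherDigits k D := rfl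
      rw [e4]
    rw [hX, hStart] at h1
    exact h1
  · intro T hT A
    have h := hmain k (by omega) D (fun i => (hD i).1) (fun i => (hD i).2) y (by omega) hyL1 T
      (by rw [hV]; exact hT) A
    rw [hStart, hV] at h
    have e1 : (Start b k D G y).filter (fun n => Nw (Q f) y T n ∈ A) =
        (Start b k D G y).filter (fun a => next W y T a ∈ A) := by
      apply Finset.filter_congr
      intro n _
      have e2 : Nw (Q f) y T n = next W y T n := Nw_eq _ _ _ _ _ hSfW
      rw [e2]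
    rw [e1] at h
    exact h

/-- irreducibility of primitive quadratic polynomials -/
lemma irr_quad (a b c : ℤ) (ha : 0 < a) (hprim : ∃ u v w : ℤ, u * a + v * b + w * c = 1)
    (hd : ¬ IsSquare (b ^ 2 - 4 * a * c)) : Irreducible (C a * X ^ 2 + C b * X + C c : ℤ[X]) := by
  have hdeg : (C a * X ^ 2 + C b * X + C c : ℤ[X]).natDegree = 2 := natDegree_quadratic ha.ne'
  have hp : (C a * X ^ 2 + C b * X + C c : ℤ[X]).IsPrimitive := by
    intro r hr
    rw [C_dvd_iff_dvd_coeff] at hr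
    have h2 := hr 2
    have h1 := hr 1
    have h0 := hr 0
    have e2 : (C a * X ^ 2 + C b * X + C c : ℤ[X]).coeff 2 = a := by
      rw [coeff_add, coeff_add, coeff_C_mul, coeff_C_mul, coeff_X_pow, coeff_X_of_ne_one (by norm_num),
        coeff_C_of_ne_zero (by norm_num), if_pos rfl]
      ring
    have e1 : (C a * X ^ 2 + C b * X + C c : ℤ[X]).coeff 1 = b := by
      rw [coeff_add, coeff_add, coeff_C_mul, coeff_C_mul, coeff_X_pow, coeff_X_one,
        coeff_C_of_ne_zero (by norm_num), if_neg (by norm_num)]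
      ring
    have e0 : (C a * X ^ 2 + C b * X + C c : ℤ[X]).coeff 0 = c := by
      rw [coeff_add, coeff_add, coeff_C_mul, coeff_C_mul, coeff_X_pow, coeff_X_zero,
        coeff_C_zero, if_neg (by norm_num)]
      ring
    rw [e2] at h2
    rw [e1] at h1
    rw [e0] at h0
    obtain ⟨u, v, w, huvw⟩ := hprim
    apply isUnit_of_dvd_one
    rw [← huvw]
    exact dvd_add (dvd_add (h2.mul_left _) (h1.mul_left _)) (h0.mul_left _)
  rw [Polynomial.IsPrimitive.Int.irreducible_iff_irreducible_map_cast hp]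
  have h1 : (C a * X ^ 2 + C b * X + C c : ℤ[X]).map (Int.castRingHom ℚ) =
      C (a : ℚ) * X ^ 2 + C (b : ℚ) * X + C (c : ℚ) := by
    simp [Polynomial.map_add, Polynomial.map_mul, Polynomial.map_pow]
  have ha' : (a : ℚ) ≠ 0 := by exact_mod_cast ha.ne'
  rw [h1]
  have hdeg2 : (C (a : ℚ) * X ^ 2 + C (b : ℚ) * X + C (c : ℚ)).natDegree = 2 := natDegree_quadratic ha'
  apply irreducible_of_degree_le_three_of_not_isRoot
  · rw [hdeg2]
    decide
  · intro x hx
    rw [IsRoot.def] at hx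
    simp only [eval_add, eval_mul, eval_pow, eval_X, eval_C] at hx
    apply hd
    rw [← Rat.isSquare_intCast_iff]
    refine ⟨2 * a * x + b, ?_⟩
    push_cast
    linear_combination (-4 * (a : ℚ)) * hx

lemma deg_quad (a b c : ℤ) (ha : 0 < a) : (C a * X ^ 2 + C b * X + C c : ℤ[X]).natDegree = 2 :=
  natDegree_quadratic ha.ne'

lemma lead_quad (a b c : ℤ) (ha : 0 < a) : (C a * X ^ 2 + C b * X + C c : ℤ[X]).leadingCoeff = a :=
  leadingCoeff_quadratic ha.ne'

lemma eval_quad (a b c t : ℤ) :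
    (C a * X ^ 2 + C b * X + C c : ℤ[X]).eval t = a * t ^ 2 + b * t + c := by
  simp

/-- comparison of translates -/
lemma quad_comp_ne (a b c b' c' : ℤ) (ha : 0 < a) (hb : b ≤ b') (t : ℕ) (ht : 1 ≤ t) :
    (C a * X ^ 2 + C b * X + C c : ℤ[X]) ≠ (C a * X ^ 2 + C b' * X + C c').comp (X + C (t : ℤ)) := by
  intro h
  have h0 := congrArg (fun f : ℤ[X] => f.eval 0) h
  have h1 := congrArg (fun f : ℤ[X] => f.eval 1) h
  simp only [eval_comp, eval_add, eval_mul, eval_pow, eval_X, eval_C] at h0 h1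
  have ht' : (1 : ℤ) ≤ t := by exact_mod_cast ht
  nlinarith [mul_pos ha (by linarith : (0 : ℤ) < t)]

end Pool.Agent.Q263.PK.Gen
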