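import Pool.Agent.Q236.ML.Mixed

set_option autoImplicit false

/-!
# Sieve conditions with a fixed part: the singular factors
-/

namespace Pool.Agent.Q263.PK

open Finset Filter Pool.Agent.H373R2.T7 Pool.Agent.W123.RP Pool.Agent.W123.RU Pool.Agent.TH464.PO
open Pool.Agent.Q236.CP Pool.Agent.Q236.ML

/-- a collision of the fixed condition with the condition at distance `t` -/
def CoP (P Q : ℕ → ℕ → Prop) (p t : ℕ) : Prop := ∃ m : ℕ, P p m ∧ Q p (m + t)

/-- the joint condition -/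
def PJ (P Q : ℕ → ℕ → Prop) (J : Finset ℕ) (p n : ℕ) : Prop := P p n ∨ QH Q J p n

/-- a collision in `J` or of the fixed condition with an element of `J` -/
def ClP (P Q : ℕ → ℕ → Prop) (J : Finset ℕ) (p : ℕ) : Prop :=
  Cl Q J p ∨ ∃ t ∈ J, CoP P Q p t

open Classical in
lemma nuB_PJ (P Q : ℕ → ℕ → Prop) (c : ℕ) (hQ : PerB Q c) (J : Finset ℕ) (p : ℕ)
    (h : ¬ ClP P Q J p) : nuB (PJ P Q J) p = nuB P p + J.card * nuB Q p := by
  rw [← nuB_eq_of_not_Cl Q c hQ J p (fun hc => h (Or.inl hc))]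
  have h1 : (range p).filter (fun r => PJ P Q J p r) =
      (range p).filter (fun r => P p r) ∪ (range p).filter (fun r => QH Q J p r) := by
    ext r
    rw [mem_union, mem_filter, mem_filter, mem_filter]
    unfold PJ
    tauto
  have h2 : Disjoint ((range p).filter (fun r => P p r)) ((range p).filter (fun r => QH Q J p r)) := by
    rw [Finset.disjoint_left]
    intro r hr hr'
    rw [mem_filter] at hr hr'
    obtain ⟨_, hq⟩ := hr
    obtain ⟨_, b, hb, hqb⟩ := hr'
    exact h (Or.inr ⟨b, hb, r, hq, hqb⟩)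
  unfold nuB
  have h3 := Finset.card_union_of_disjoint h2
  rw [← h1] at h3
  convert h3

open Classical in
lemma nuB_PJ_ge (P Q : ℕ → ℕ → Prop) (J : Finset ℕ) (p : ℕ) : nuB P p ≤ nuB (PJ P Q J) p := by
  unfold nuB
  apply card_le_card
  intro r hr
  rw [mem_filter] at hr ⊢
  exact ⟨hr.1, Or.inl hr.2⟩

open Classical in
lemma nuB_PJ_le (P Q : ℕ → ℕ → Prop) (c : ℕ) (hQ : PerB Q c) (J : Finset ℕ) (p : ℕ) :
    nuB (PJ P Q J) p ≤ nuB P p + J.card * nuB Q p := by
  have h0 := nuB_QH_le Q c hQ J p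
  have h1 : (range p).filter (fun r => PJ P Q J p r) ⊆
      (range p).filter (fun r => P p r) ∪ (range p).filter (fun r => QH Q J p r) := by
    intro r hr
    rw [mem_filter] at hr
    rw [mem_union, mem_filter, mem_filter]
    rcases hr.2 with h | h
    · exact Or.inl ⟨hr.1, h⟩
    · exact Or.inr ⟨hr.1, h⟩
  have h2 := (card_le_card h1).trans (card_union_le _ _)
  unfold nuB at h0 ⊢
  refine le_trans ?_ (Nat.add_le_add_left h0 _)
  convert h2

lemma perB_PJ (P Q : ℕ → ℕ → Prop) (c : ℕ) (hP : PerB P c) (hQ : PerB Q c) (J : Finset ℕ) :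
    PerB (PJ P Q J) ((1 + J.card) * c) := by
  classical
  constructor
  · intro p n
    unfold PJ
    rw [hP.per p n, (perB_QH Q c hQ J).per p n]
  · intro p hp
    have h1 := nuB_PJ_le P Q c hQ J p
    have h2 := hP.few p hp
    have h3 := Nat.mul_le_mul_left J.card (hQ.few p hp)
    calc nuB (PJ P Q J) p ≤ c + J.card * c := by omega
      _ = _ := by ring

open Classical in
/-- upper bound for one factor -/
lemma factor_up (P Q : ℕ → ℕ → Prop) (c : ℕ) (hQ : PerB Q c) (J : Finset ℕ) (p : ℕ) (hp : p.Prime)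
    (hbig : 2 * (J.card * c) ≤ p) : 1 - (nuB (PJ P Q J) p : ℝ) / p ≤
      (1 - (nuB P p : ℝ) / p) * (1 - (nuB Q p : ℝ) / p) ^ J.card *
        (if ClP P Q J p then 1 + ((2 * (J.card * c) : ℕ) : ℝ) / p else 1) := by
  have hp0 : (0 : ℝ) < p := by exact_mod_cast hp.pos
  have hfew := hQ.few p hp
  obtain ⟨k, hk⟩ : ∃ k, k = J.card := ⟨_, rfl⟩
  rw [← hk] at hbig ⊢
  obtain ⟨u, hu⟩ : ∃ u : ℝ, u = (nuB Q p : ℝ) / p := ⟨_, rfl⟩
  obtain ⟨a, ha⟩ : ∃ a : ℝ, a = (nuB P p : ℝ) / p := ⟨_, rfl⟩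
  rw [← hu, ← ha]
  have hu0 : 0 ≤ u := by rw [hu]; positivity
  have ha0 : 0 ≤ a := by rw [ha]; positivity
  have ha1 : 0 ≤ 1 - a := by rw [ha]; exact one_sub_nonneg _ p hp
  have hu1 : u ≤ 1 := by
    rw [hu, div_le_one hp0]
    exact_mod_cast nuB_le Q p
  have hc : (nuB Q p : ℝ) ≤ c := by exact_mod_cast hfew
  have hk0 : (0 : ℝ) ≤ k := Nat.cast_nonneg k
  have hku : (k : ℝ) * u ≤ ((k * c : ℕ) : ℝ) / p := by
    rw [hu, ← mul_div_assoc]
    apply div_le_div_of_nonneg_right _ hp0.le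
    push_cast
    gcongr
  have hkc : ((k * c : ℕ) : ℝ) / p ≤ 1 / 2 := by
    rw [div_le_div_iff₀ hp0 (by norm_num)]
    have : ((2 * (k * c) : ℕ) : ℝ) ≤ p := by exact_mod_cast hbig
    push_cast at this ⊢
    linarith
  have hber := one_add_mul_le_pow (a := -u) (by linarith) k
  have hber' : 1 - k * u ≤ (1 - u) ^ k := by
    calc 1 - k * u = 1 + k * -u := by ring
      _ ≤ (1 + -u) ^ k := hber
      _ = (1 - u) ^ k := by ring
  by_cases h : ClP P Q J p
  · rw [if_pos h]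
    have h1 : 1 - (nuB (PJ P Q J) p : ℝ) / p ≤ 1 - a := by
      have h0 : a ≤ (nuB (PJ P Q J) p : ℝ) / p := by
        rw [ha]
        apply div_le_div_of_nonneg_right _ hp0.le
        exact_mod_cast nuB_PJ_ge P Q J p
      linarith
    refine h1.trans ?_
    obtain ⟨t, ht⟩ : ∃ t : ℝ, t = k * u := ⟨_, rfl⟩
    have ht0 : 0 ≤ t := by rw [ht]; positivity
    have ht1 : t ≤ 1 / 2 := by rw [ht]; linarith
    have h2 : 1 + 2 * t ≤ 1 + ((2 * (k * c) : ℕ) : ℝ) / p := by
      have : ((2 * (k * c) : ℕ) : ℝ) / p = 2 * (((k * c : ℕ) : ℝ) / p) := by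
        push_cast
        ring
      rw [this, ht]
      linarith
    have h3 : (1 : ℝ) ≤ (1 - u) ^ k * (1 + ((2 * (k * c) : ℕ) : ℝ) / p) := by
      calc (1 : ℝ) ≤ (1 - t) * (1 + 2 * t) := by nlinarith
        _ ≤ (1 - u) ^ k * (1 + ((2 * (k * c) : ℕ) : ℝ) / p) := by
          apply mul_le_mul (by rw [ht]; exact hber') h2 (by linarith)
          exact pow_nonneg (by linarith) k
    rw [mul_assoc]
    calc 1 - a = (1 - a) * 1 := (mul_one _).symm
      _ ≤ _ := mul_le_mul_of_nonneg_left h3 ha1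
  · rw [if_neg h, mul_one, nuB_PJ P Q c hQ J p h, ← hk]
    have e : 1 - ((nuB P p + k * nuB Q p : ℕ) : ℝ) / p = 1 - a - k * u := by
      rw [ha, hu]
      push_cast
      ring
    rw [e]
    calc 1 - a - k * u ≤ (1 - a) * (1 - k * u) := by nlinarith [mul_nonneg ha0 (mul_nonneg hk0 hu0)]
      _ ≤ _ := mul_le_mul_of_nonneg_left hber' ha1

open Classical in
/-- lower bound for one factor -/
lemma factor_lo (P Q : ℕ → ℕ → Prop) (c : ℕ) (hP : PerB P c) (hQ : PerB Q c) (J : Finset ℕ) (p : ℕ)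
    (hp : p.Prime) (hbig : 2 * ((1 + J.card) * c) ≤ p) :
      (1 - (nuB P p : ℝ) / p) * (1 - (nuB Q p : ℝ) / p) ^ J.card *
        (1 - (((1 + J.card) * c : ℕ) : ℝ) ^ 2 * 2 / (p : ℝ) ^ 2) ≤
        1 - (nuB (PJ P Q J) p : ℝ) / p := by
  have hp0 : (0 : ℝ) < p := by exact_mod_cast hp.pos
  have hfew := hQ.few p hp
  have hc : (nuB Q p : ℝ) ≤ c := by exact_mod_cast hfew
  obtain ⟨k, hk⟩ : ∃ k, k = J.card := ⟨_, rfl⟩
  obtain ⟨u, hu⟩ : ∃ u : ℝ, u = (nuB Q p : ℝ) / p := ⟨_, rfl⟩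
  obtain ⟨a, ha⟩ : ∃ a : ℝ, a = (nuB P p : ℝ) / p := ⟨_, rfl⟩
  obtain ⟨s, hs⟩ : ∃ s : ℝ, s = (((1 + J.card) * c : ℕ) : ℝ) / p := ⟨_, rfl⟩
  have hk0 : (0 : ℝ) ≤ k := Nat.cast_nonneg k
  have hu0 : 0 ≤ u := by rw [hu]; positivity
  have ha0 : 0 ≤ a := by rw [ha]; positivity
  have ha1 : 0 ≤ 1 - a := by rw [ha]; exact one_sub_nonneg _ p hp
  have hu1 : u ≤ 1 := by
    rw [hu, div_le_one hp0]
    exact_mod_cast nuB_le Q p
  have hs0 : 0 ≤ s := by rw [hs]; positivity
  have hs1 : s ≤ 1 / 2 := by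
    rw [hs, div_le_div_iff₀ hp0 (by norm_num)]
    have : ((2 * ((1 + J.card) * c) : ℕ) : ℝ) ≤ p := by exact_mod_cast hbig
    push_cast at this ⊢
    linarith
  have hH : (nuB P p : ℝ) ≤ c := by exact_mod_cast hP.few p hp
  have hak : a + k * u ≤ s := by
    rw [ha, hu, hs, hk, ← mul_div_assoc, ← add_div]
    apply div_le_div_of_nonneg_right _ hp0.le
    push_cast
    have : (J.card : ℝ) * nuB Q p ≤ J.card * c := by gcongr
    linarith
  have hq := pow_le_quad k u hu0 hu1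
  have hP0 : 0 ≤ (1 - u) ^ k := pow_nonneg (by linarith) k
  have hle : (nuB (PJ P Q J) p : ℝ) / p ≤ a + k * u := by
    rw [ha, hu, hk, ← mul_div_assoc, ← add_div]
    apply div_le_div_of_nonneg_right _ hp0.le
    exact_mod_cast nuB_PJ_le P Q c hQ J p
  have hes : (((1 + J.card) * c : ℕ) : ℝ) ^ 2 * 2 / (p : ℝ) ^ 2 = 2 * s ^ 2 := by
    rw [hs]
    field_simp
  rw [hes, ← hk, ← hu, ← ha]
  have ht0 : 0 ≤ k * u := by positivity
  have ht1 : k * u ≤ s := by linarith
  have h2s : 0 ≤ 1 - 2 * s ^ 2 := by nlinarith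
  refine le_trans ?_ (by linarith : 1 - (a + k * u) ≤ _)
  calc (1 - a) * (1 - u) ^ k * (1 - 2 * s ^ 2) ≤
      (1 - a) * (1 - k * u + (k * u) ^ 2 / 2) * (1 - 2 * s ^ 2) := by
        apply mul_le_mul_of_nonneg_right _ h2s
        exact mul_le_mul_of_nonneg_left hq ha1
    _ ≤ 1 - (a + k * u) := by
        obtain ⟨t, ht⟩ : ∃ t : ℝ, t = k * u := ⟨_, rfl⟩
        rw [← ht] at ht0 ht1 hak ⊢
        have e1 : (1 - a) * (1 - t + t ^ 2 / 2) ≤ 1 - (a + t) + s ^ 2 := by
          nlinarith [mul_nonneg ha0 ht0, mul_nonneg ha0 (sq_nonneg t), sq_nonneg (a - t)]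
        have e2 : (1 : ℝ) / 2 ≤ 1 - (a + t) := by linarith
        calc (1 - a) * (1 - t + t ^ 2 / 2) * (1 - 2 * s ^ 2) ≤
            (1 - (a + t) + s ^ 2) * (1 - 2 * s ^ 2) := mul_le_mul_of_nonneg_right e1 h2s
          _ ≤ 1 - (a + t) := by nlinarith [sq_nonneg s, sq_nonneg (s ^ 2)]

open Classical in
/-- the product over the collision primes with the fixed condition -/
noncomputable def Fq (P Q : ℕ → ℕ → Prop) (K w y t : ℕ) : ℝ :=
  ∏ p ∈ (pz y).filter (fun p : ℕ => w < p ∧ CoP P Q p t), (1 + (K : ℝ) / p)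

open Classical in
lemma Fq_ge (P Q : ℕ → ℕ → Prop) (K w y t : ℕ) : 1 ≤ Fq P Q K w y t := by
  unfold Fq
  apply Finset.one_le_prod
  intro p _
  have : 0 ≤ (K : ℝ) / p := by positivity
  linarith

open Classical in
lemma Fq_mono (P Q : ℕ → ℕ → Prop) (K K' w y t : ℕ) (h : K ≤ K') :
    Fq P Q K w y t ≤ Fq P Q K' w y t := by
  unfold Fq
  apply Finset.prod_le_prod
  · intro p _
    positivity
  · intro p _
    have : (K : ℝ) ≤ K' := by exact_mod_cast h
    gcongr

open Classical in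
lemma Fq_pow (P Q : ℕ → ℕ → Prop) (K M w y t : ℕ) :
    Fq P Q K w y t ^ M ≤ Fq P Q ((1 + K) ^ M - 1) w y t := by
  unfold Fq
  rw [← Finset.prod_pow]
  apply Finset.prod_le_prod
  · intro p _
    positivity
  · intro p hp
    rw [mem_filter, mem_pz] at hp
    have hp1 : (1 : ℝ) ≤ p := by exact_mod_cast hp.1.2.one_lt.le
    have hp0 : (0 : ℝ) < p := by linarith
    have hx0 : (0 : ℝ) ≤ 1 / p := by positivity
    have hx1 : (1 : ℝ) / p ≤ 1 := by rw [div_le_one hp0]; exact hp1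
    have hcast : (((1 + K) ^ M - 1 : ℕ) : ℝ) = (1 + (K : ℝ)) ^ M - 1 := by
      rw [Nat.cast_sub (Nat.one_le_pow _ _ (by omega))]
      push_cast
      ring
    rw [hcast]
    -- (1 + K x)^M ≤ 1 + ((1+K)^M - 1) x for 0 ≤ x ≤ 1
    have key : ∀ m : ℕ, (1 + (K : ℝ) / p) ^ m ≤ 1 + ((1 + (K : ℝ)) ^ m - 1) / p := by
      intro m
      induction m with
      | zero => simp
      | succ m ih =>
        have hK : (0 : ℝ) ≤ K := Nat.cast_nonneg K
        have hpow : (1 : ℝ) ≤ (1 + (K : ℝ)) ^ m := one_le_pow₀ (by linarith)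
        have hb0 : 0 ≤ 1 + (K : ℝ) / p := by positivity
        rw [pow_succ]
        refine (mul_le_mul_of_nonneg_right ih hb0).trans ?_
        have e1 : (K : ℝ) / p = K * (1 / p) := by ring
        have e2 : ((1 + (K : ℝ)) ^ m - 1) / p = ((1 + (K : ℝ)) ^ m - 1) * (1 / p) := by ring
        have e3 : ((1 + (K : ℝ)) ^ (m + 1) - 1) / p = ((1 + (K : ℝ)) ^ (m + 1) - 1) * (1 / p) := by ring
        rw [e1, e2, e3, pow_succ]
        obtain ⟨x, hx⟩ : ∃ x : ℝ, x = 1 / p := ⟨_, rfl⟩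
        obtain ⟨A, hA⟩ : ∃ A : ℝ, A = (1 + (K : ℝ)) ^ m := ⟨_, rfl⟩
        rw [← hx] at hx0 hx1 ⊢
        rw [← hA] at hpow ⊢
        have h1 : 0 ≤ (A - 1) * K * (x * (1 - x)) := by
          apply mul_nonneg (mul_nonneg (by linarith) hK) (mul_nonneg hx0 (by linarith))
        nlinarith
    exact key M

open Classical in
theorem coll_P (P Q : ℕ → ℕ → Prop) (c : ℕ) (hP : PerB P c) (hQ : PerB Q c) (p0 : ℕ) :
    Coll (CoP P Q) p0 (c ^ 2) := by
  constructor
  · intro p n
    unfold CoP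
    apply exists_congr
    intro m
    rw [per_add Q c hQ p m m n (n % p) rfl (Nat.mod_mod n p).symm]
  · intro p hp _
    have hsub : (range p).filter (fun h => CoP P Q p h) ⊆
        ((range p).filter (fun r => P p r)).biUnion (fun a => (range p).filter (fun r => Q p (r + a))) := by
      intro h hh
      rw [mem_filter] at hh
      obtain ⟨hh1, m, hm1, hm2⟩ := hh
      rw [mem_biUnion]
      refine ⟨m % p, ?_, ?_⟩
      · rw [mem_filter, mem_range]
        exact ⟨Nat.mod_lt _ hp.pos, (hP.per p m).1 hm1⟩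
      · rw [mem_filter]
        refine ⟨hh1, ?_⟩
        rw [add_comm h]
        exact (per_add Q c hQ p m (m % p) h h (Nat.mod_mod m p).symm rfl).1 hm2
    have h1 := Finset.card_biUnion_le_card_mul ((range p).filter (fun r => P p r))
      (fun a => (range p).filter (fun r => Q p (r + a))) c (by
        intro a _
        have h2 := nuB_shift Q c hQ a p
        have h3 := hQ.few p hp
        refine le_trans (le_of_eq ?_) h3
        rw [← h2])
    have h2 : ((range p).filter (fun r => P p r)).card ≤ c := by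
      refine le_trans (le_of_eq ?_) (hP.few p hp)
      unfold nuB
      congr
    have h3 := (card_le_card hsub).trans (h1.trans (Nat.mul_le_mul_right c h2))
    rw [sq]
    convert h3

/-- the collision sum -/
noncomputable def gq (g g' : ℕ → ℝ) (J : Finset ℕ) : ℝ :=
  ∑ x ∈ prs J, g (x.2 - x.1) + ∑ t ∈ J, g' t

open Classical in
/-- upper bound for the tail -/
lemma tail_up2 (P Q : ℕ → ℕ → Prop) (c : ℕ) (hQ : PerB Q c) (J : Finset ℕ) (w y : ℕ)
    (hbig : 2 * (J.card * c) ≤ w) :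
    Vt (PJ P Q J) w y ≤ Vt P w y * Vt Q w y ^ J.card *
      (1 + gq (fun t => Fp Q ((1 + 2 * (J.card * c)) ^ (J.card ^ 2 + J.card) - 1) w y t - 1)
        (fun t => Fq P Q ((1 + 2 * (J.card * c)) ^ (J.card ^ 2 + J.card) - 1) w y t - 1) J) := by
  obtain ⟨K, hK⟩ : ∃ K, K = 2 * (J.card * c) := ⟨_, rfl⟩
  have h1 : Vt (PJ P Q J) w y ≤ ∏ p ∈ (pz y).filter (fun p => w < p),
      ((1 - (nuB P p : ℝ) / p) * (1 - (nuB Q p : ℝ) / p) ^ J.card *
        (if ClP P Q J p then 1 + (K : ℝ) / p else 1)) := by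
    unfold Vt
    apply Finset.prod_le_prod
    · intro p hp
      rw [mem_filter] at hp
      exact one_sub_nonneg _ p (mem_pz.1 hp.1).2
    · intro p hp
      rw [mem_filter] at hp
      have h2 := factor_up P Q c hQ J p (mem_pz.1 hp.1).2 (by omega)
      rw [hK]
      exact h2
  have hge : ∀ (p : ℕ) (R : Prop), (1 : ℝ) ≤ (if R then 1 + (K : ℝ) / p else 1) := by
    intro p R
    have : 0 ≤ (K : ℝ) / p := by positivity
    split_ifs <;> linarith
  have h2 : ∏ p ∈ (pz y).filter (fun p => w < p), (if ClP P Q J p then 1 + (K : ℝ) / p else 1) ≤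
      (∏ x ∈ prs J, Fp Q K w y (x.2 - x.1)) * ∏ t ∈ J, Fq P Q K w y t := by
    have e : ∏ x ∈ prs J, Fp Q K w y (x.2 - x.1) = ∏ p ∈ (pz y).filter (fun p => w < p),
        ∏ x ∈ prs J, (if CoG Q p (x.2 - x.1) then 1 + (K : ℝ) / p else 1) := by
      rw [Finset.prod_comm]
      apply Finset.prod_congr rfl
      intro x _
      unfold Fp
      rw [← Finset.filter_filter, Finset.prod_filter]
    have e' : ∏ t ∈ J, Fq P Q K w y t = ∏ p ∈ (pz y).filter (fun p => w < p),
        ∏ t ∈ J, (if CoP P Q p t then 1 + (K : ℝ) / p else 1) := by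
      rw [Finset.prod_comm]
      apply Finset.prod_congr rfl
      intro x _
      unfold Fq
      rw [← Finset.filter_filter, Finset.prod_filter]
    rw [e, e', ← Finset.prod_mul_distrib]
    apply Finset.prod_le_prod
    · intro p _
      exact zero_le_one.trans (hge p _)
    · intro p _
      have g1 : (1 : ℝ) ≤ ∏ x ∈ prs J, (if CoG Q p (x.2 - x.1) then 1 + (K : ℝ) / p else 1) :=
        Finset.one_le_prod (fun x _ => hge p _)
      have g2 : (1 : ℝ) ≤ ∏ t ∈ J, (if CoP P Q p t then 1 + (K : ℝ) / p else 1) :=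
        Finset.one_le_prod (fun x _ => hge p _)
      split_ifs with h
      · rcases h with ⟨a, ha, b, hb, hab, hco⟩ | ⟨b, hb, hco⟩
        · have hmem : (a, b) ∈ prs J := by
            unfold prs
            rw [mem_filter, mem_product]
            exact ⟨⟨ha, hb⟩, hab⟩
          have h3 := single_le_prod_one (prs J)
            (fun x => if CoG Q p (x.2 - x.1) then 1 + (K : ℝ) / p else 1) (fun x _ => hge p _) (a, b) hmem
          simp only [if_pos hco] at h3
          calc 1 + (K : ℝ) / p ≤ _ := h3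
            _ ≤ _ := le_mul_of_one_le_right (by linarith) g2
        · have h3 : 1 + (K : ℝ) / p ≤ ∏ t ∈ J, (if CoP P Q p t then 1 + (K : ℝ) / p else 1) := by
            rw [← Finset.mul_prod_erase J _ hb, if_pos hco]
            have h4 : (1 : ℝ) ≤ ∏ t ∈ J.erase b, (if CoP P Q p t then 1 + (K : ℝ) / p else 1) :=
              Finset.one_le_prod (fun x _ => hge p _)
            have h5 : 0 ≤ 1 + (K : ℝ) / p := by positivity
            exact le_mul_of_one_le_right h5 h4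
          calc 1 + (K : ℝ) / p ≤ _ := h3
            _ ≤ _ := le_mul_of_one_le_left (by linarith) g1
      · calc (1 : ℝ) = 1 * 1 := (one_mul 1).symm
          _ ≤ _ := mul_le_mul g1 g2 (by norm_num) (by linarith)
  have h3 : (∏ x ∈ prs J, Fp Q K w y (x.2 - x.1)) * (∏ t ∈ J, Fq P Q K w y t) - 1 ≤
      gq (fun t => Fp Q ((1 + K) ^ (J.card ^ 2 + J.card) - 1) w y t - 1)
        (fun t => Fq P Q ((1 + K) ^ (J.card ^ 2 + J.card) - 1) w y t - 1) J := by
    have e1 : (∏ x ∈ prs J, Fp Q K w y (x.2 - x.1)) * (∏ t ∈ J, Fq P Q K w y t) =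
        ∏ x ∈ (prs J).disjSum J, Sum.elim (fun x : ℕ × ℕ => Fp Q K w y (x.2 - x.1))
          (fun t : ℕ => Fq P Q K w y t) x := by
      rw [Finset.prod_disjSum]
      rfl
    have hcard : ((prs J).disjSum J).card ≤ J.card ^ 2 + J.card := by
      rw [card_disjSum]
      exact Nat.add_le_add_right (prs_card J) _
    rw [e1]
    refine (prod_sub_one_le _ _ (fun x _ => by
      rcases x with x | x
      · exact Fp_ge Q K w y _
      · exact Fq_ge P Q K w y _) _ hcard).trans ?_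
    rw [Finset.sum_disjSum]
    unfold gq
    apply add_le_add
    · apply Finset.sum_le_sum
      intro x _
      have := Fp_pow Q K (J.card ^ 2 + J.card) w y (x.2 - x.1)
      simp only [Sum.elim_inl]
      linarith
    · apply Finset.sum_le_sum
      intro x _
      have := Fq_pow P Q K (J.card ^ 2 + J.card) w y x
      simp only [Sum.elim_inr]
      linarith
  rw [← hK]
  refine h1.trans ?_
  rw [Finset.prod_mul_distrib, Finset.prod_mul_distrib, Finset.prod_pow]
  apply mul_le_mul_of_nonneg_left _ (mul_nonneg (Vt_nonneg _ w y) (pow_nonneg (Vt_nonneg Q w y) _))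
  linarith

/-- lower bound for the tail -/
lemma tail_lo2 (P Q : ℕ → ℕ → Prop) (c : ℕ) (hP : PerB P c) (hQ : PerB Q c) (J : Finset ℕ) (w y : ℕ)
    (hw : 1 ≤ w) (hbig : 2 * ((1 + J.card) * c) ≤ w) :
    Vt P w y * Vt Q w y ^ J.card * (1 - (((1 + J.card) * c : ℕ) : ℝ) ^ 2 * 2 / w) ≤
      Vt (PJ P Q J) w y := by
  have h1 : ∏ p ∈ (pz y).filter (fun p => w < p),
      ((1 - (nuB P p : ℝ) / p) * (1 - (nuB Q p : ℝ) / p) ^ J.card *
        (1 - (((1 + J.card) * c : ℕ) : ℝ) ^ 2 * 2 / (p : ℝ) ^ 2)) ≤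
      Vt (PJ P Q J) w y := by
    unfold Vt
    apply Finset.prod_le_prod
    · intro p hp
      rw [mem_filter] at hp
      apply mul_nonneg (mul_nonneg (one_sub_nonneg _ p (mem_pz.1 hp.1).2)
        (pow_nonneg (one_sub_nonneg Q p (mem_pz.1 hp.1).2) _))
      have hp0 : (0 : ℝ) < p := by exact_mod_cast (mem_pz.1 hp.1).2.pos
      rw [sub_nonneg, div_le_one (by positivity)]
      have h3 : ((2 * ((1 + J.card) * c) : ℕ) : ℝ) ≤ p := by
        exact_mod_cast (by omega : 2 * ((1 + J.card) * c) ≤ p)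
      have h4 : (0 : ℝ) ≤ (((1 + J.card) * c : ℕ) : ℝ) := Nat.cast_nonneg _
      rw [Nat.cast_mul 2] at h3
      push_cast at h3 h4 ⊢
      nlinarith
    · intro p hp
      rw [mem_filter] at hp
      exact factor_lo P Q c hP hQ J p (mem_pz.1 hp.1).2 (by omega)
  refine le_trans ?_ h1
  rw [Finset.prod_mul_distrib, Finset.prod_mul_distrib, Finset.prod_pow]
  apply mul_le_mul_of_nonneg_left _ (mul_nonneg (Vt_nonneg _ w y) (pow_nonneg (Vt_nonneg Q w y) _))
  refine le_trans ?_ (prod_one_sub_ge _ _ (fun p _ => by positivity) ?_)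
  · have h2 := sum_inv_sq w y hw
    have h3 : ∑ p ∈ (pz y).filter (fun p => w < p), (((1 + J.card) * c : ℕ) : ℝ) ^ 2 * 2 / (p : ℝ) ^ 2 ≤
        (((1 + J.card) * c : ℕ) : ℝ) ^ 2 * 2 * (1 / w) := by
      calc ∑ p ∈ (pz y).filter (fun p => w < p), (((1 + J.card) * c : ℕ) : ℝ) ^ 2 * 2 / (p : ℝ) ^ 2 ≤
          ∑ p ∈ (Icc 1 y).filter (fun n => w < n), (((1 + J.card) * c : ℕ) : ℝ) ^ 2 * 2 / (p : ℝ) ^ 2 := by
            apply Finset.sum_le_sum_of_subset_of_nonneg
            · intro p hp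
              rw [mem_filter, mem_pz] at hp
              rw [mem_filter, mem_Icc]
              exact ⟨⟨hp.1.2.one_lt.le, hp.1.1⟩, hp.2⟩
            · intros; positivity
        _ = (((1 + J.card) * c : ℕ) : ℝ) ^ 2 * 2 *
              ∑ p ∈ (Icc 1 y).filter (fun n => w < n), 1 / (p : ℝ) ^ 2 := by
            rw [Finset.mul_sum]
            apply Finset.sum_congr rfl
            intros
            ring
        _ ≤ _ := by gcongr
    have h4 : (((1 + J.card) * c : ℕ) : ℝ) ^ 2 * 2 * (1 / w) =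
        (((1 + J.card) * c : ℕ) : ℝ) ^ 2 * 2 / w := by ring
    linarith
  · intro p hp
    rw [mem_filter] at hp
    have hp0 : (0 : ℝ) < p := by exact_mod_cast (mem_pz.1 hp.1).2.pos
    rw [div_le_one (by positivity)]
    have h3 : ((2 * ((1 + J.card) * c) : ℕ) : ℝ) ≤ p := by
      exact_mod_cast (by omega : 2 * ((1 + J.card) * c) ≤ p)
    have h4 : (0 : ℝ) ≤ (((1 + J.card) * c : ℕ) : ℝ) := Nat.cast_nonneg _
    rw [Nat.cast_mul 2] at h3
    push_cast at h3 h4 ⊢
    nlinarith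

open Classical in
/-- double counting of elements -/
lemma sum_el_le (k : ℕ) (B : Finset ℕ) (g : ℕ → ℝ) (hg : ∀ x, 0 ≤ g x) :
    ∑ J ∈ powersetCard (k + 1) B, ∑ x ∈ J, g x ≤ (B.card : ℝ) ^ k * ∑ x ∈ B, g x := by
  have h1 : ∀ J ∈ powersetCard (k + 1) B, ∑ x ∈ J, g x = ∑ x ∈ B, if x ∈ J then g x else 0 := by
    intro J hJ
    rw [mem_powersetCard] at hJ
    rw [← Finset.sum_filter]
    apply Finset.sum_congr _ (fun _ _ => rfl)
    ext x
    rw [mem_filter]
    exact ⟨fun h => ⟨hJ.1 h, h⟩, fun h => h.2⟩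
  rw [Finset.sum_congr rfl h1, Finset.sum_comm, Finset.mul_sum]
  apply Finset.sum_le_sum
  intro x _
  rw [← Finset.sum_filter, Finset.sum_const, nsmul_eq_mul]
  apply mul_le_mul_of_nonneg_right _ (hg x)
  have h2 : ((powersetCard (k + 1) B).filter (fun J => x ∈ J)).card ≤ (powersetCard k B).card := by
    apply Finset.card_le_card_of_injOn (fun H => H.erase x)
    · intro H hH
      rw [Finset.mem_coe, mem_filter, mem_powersetCard] at hH
      obtain ⟨⟨h1, h2⟩, h3⟩ := hH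
      rw [Finset.mem_coe, mem_powersetCard]
      refine ⟨(erase_subset _ _).trans h1, ?_⟩
      beta_reduce
      rw [card_erase_of_mem h3, h2]
      omega
    · intro H hH H' hH' h
      rw [Finset.mem_coe, mem_filter] at hH hH'
      simp only at h
      rw [← insert_erase hH.2, ← insert_erase hH'.2, h]
  rw [card_powersetCard] at h2
  exact_mod_cast h2.trans (Nat.choose_le_pow _ _)

end Pool.Agent.Q263.PK
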