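import Pool.Agent.Q263.PK.Cls
import Pool.Agent.TH464.PO.Gen

set_option autoImplicit false

/-!
# The conditional Poisson law along a finite set of integers
-/

namespace Pool.Agent.Q263.PK

open Finset Filter Pool.Agent.H373R2.T7 Pool.Agent.W123.RP Pool.Agent.W123.RU Pool.Agent.TH464.PO
open Pool.Agent.Q236.CP Pool.Agent.Q236.ML
open Pool.Agent.Q263.PL

open Classical in
/-- the elements of `Om` which avoid the conditions `P` at all primes `≤ y` -/
noncomputable def Fx (P : ℕ → ℕ → Prop) (y : ℕ) (Om : Finset ℕ) : Finset ℕ :=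
  Om.filter (fun n => Sf P y n)

lemma Fx_cl (P : ℕ → ℕ → Prop) (c : ℕ) (hP : PerB P c) (w y : ℕ) (hwy : w ≤ y) (Om : Finset ℕ) (a : ℕ) :
    (Sf P w a → cl w (Fx P y Om) a = St P w y (cl w Om a)) ∧
    (¬ Sf P w a → cl w (Fx P y Om) a = ∅) := by
  classical
  have hkey : ∀ n : ℕ, (∀ p ∈ pz w, n % p = a % p) →
      (Sf P y n ↔ Sf P w a ∧ ∀ p ∈ pz y, w < p → ¬ P p n) := by
    intro n hn
    have h1 := sf_class P c hP w n a 0 hn
    rw [add_zero, add_zero] at h1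
    rw [sf_split P w y n hwy, h1]
  constructor
  · intro ha
    ext n
    unfold Pool.Agent.Q263.PL.cl Fx St
    simp only [mem_filter]
    constructor
    · rintro ⟨⟨h1, h2⟩, h3⟩
      exact ⟨⟨h1, h3⟩, ((hkey n h3).1 h2).2⟩
    · rintro ⟨⟨h1, h3⟩, h2⟩
      exact ⟨⟨h1, (hkey n h3).2 ⟨ha, h2⟩⟩, h3⟩
  · intro ha
    ext n
    unfold Pool.Agent.Q263.PL.cl Fx
    simp only [mem_filter, notMem_empty, iff_false]
    rintro ⟨⟨h1, h2⟩, h3⟩
    exact ha ((hkey n h3).1 h2).1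

open Classical in
/-- **The conditional Poisson law along a finite set.** -/
theorem law_gen2 (c : ℕ) (x0 ε : ℝ) (hx0 : 0 ≤ x0) (hε : 0 < ε) :
    ∃ (R w0 : ℕ) (δ : ℝ), 2 ≤ w0 ∧ 0 < δ ∧ ∀ w : ℕ, w0 ≤ w → ∀ M1 : ℝ, 0 ≤ M1 →
      ∃ (T0 : ℕ) (η' v0 : ℝ), 0 < η' ∧ 0 < v0 ∧
      ∀ (Om : Finset ℕ) (y T : ℕ) (P Q : ℕ → ℕ → Prop), PerB P c → PerB Q c →
      (∀ p : ℕ, p.Prime → nuB Q p < p) → w ≤ y → (∀ a, FL (cl w Om a) w y ((1 + R) * c) δ) →
      T0 ≤ T → T * Vq Q y ≤ x0 → Vq Q y ≤ v0 →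
      (∀ t ∈ Icc 1 T, ((((pz y).filter (fun p : ℕ => T < p ∧ CoG Q p t)).card : ℕ) : ℝ) ≤ η' * T) →
      (∀ t ∈ Icc 1 T, ((((pz y).filter (fun p : ℕ => T < p ∧ CoP P Q p t)).card : ℕ) : ℝ) ≤ η' * T) →
      ∀ (B : Finset ℕ) (β : ℝ), B ⊆ Icc 1 T → 0 ≤ β → β ≤ T → RegB Q w B β M1 →
      ∀ A : Finset ℕ, |(((Fx P y Om).filter (fun n => NB Q y B n ∈ A)).card : ℝ) -
        (Fx P y Om).card * Po (β * Vq Q y) A| ≤ ε * (Fx P y Om).card := by
  obtain ⟨R, w1, η3, δ, hw11, hη3, hδ, hcls⟩ := cls_law2 c (x0 + 1) (ε / 2) (by linarith) (by positivity)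
  obtain ⟨v, hv, hVlow⟩ := V_lower_unif c
  obtain ⟨K, hK⟩ : ∃ K : ℕ, K = Kx R c := ⟨_, rfl⟩
  obtain ⟨θ, hθ⟩ : ∃ θ : ℝ, θ = η3 / (12 * (x0 + 1) ^ 2) := ⟨_, rfl⟩
  have hθ0 : 0 < θ := by rw [hθ]; positivity
  obtain ⟨w2, hw22, hcw⟩ := choose_w c (K * c ^ 2) v θ hv hθ0
  refine ⟨R, max w1 w2, δ, by omega, hδ, ?_⟩
  intro w hw M1 hM1
  have hwa : w1 ≤ w := by omega
  have hwb : w2 ≤ w := by omega
  obtain ⟨vl, hvl⟩ : ∃ vl : ℝ, vl = v / Real.log w ^ c := ⟨_, rfl⟩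
  have hlw : 0 < Real.log w := Real.log_pos (by exact_mod_cast (by omega : 1 < w))
  have hvl0 : 0 < vl := by rw [hvl]; positivity
  obtain ⟨η, hη⟩ : ∃ η : ℝ, η = min 1 (θ * vl ^ 2) := ⟨_, rfl⟩
  have hη0 : 0 < η := by rw [hη]; positivity
  have hη1 : η ≤ 1 := by rw [hη]; exact min_le_left _ _
  have hηθ : η ≤ θ * vl ^ 2 := by rw [hη]; exact min_le_right _ _
  obtain ⟨T0, hT0, havg⟩ := avg_sharp K (c ^ 2) w (by omega) η hη0 (by
    rw [hη, hvl]
    exact hcw w hwb)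
  obtain ⟨u, hu⟩ : ∃ u : ℝ, u = min η3 (min 1 (ε / 8) / (M1 + 1)) := ⟨_, rfl⟩
  have hu0 : 0 < u := by rw [hu]; positivity
  have hu1 : u ≤ η3 := by rw [hu]; exact min_le_left _ _
  have hu2 : M1 * u ≤ min 1 (ε / 8) := by
    have h1 : u ≤ min 1 (ε / 8) / (M1 + 1) := by rw [hu]; exact min_le_right _ _
    rw [le_div_iff₀ (by positivity)] at h1
    nlinarith
  refine ⟨T0, η / (K + 1), vl * u, by positivity, by positivity, ?_⟩
  intro Om y T P Q hP hQ hadm hwy hFL hT hTx hVv hlarge hlargeP B β hB hβ0 hβT hreg A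
  have hVw0 : 0 < Vq Q w := Vq_pos Q hadm w
  have hVlw : vl ≤ Vq Q w := by rw [hvl]; exact hVlow Q hQ hadm w (by omega)
  have hVw1 : Vq Q w ≤ 1 := by
    unfold Vq
    apply Finset.prod_le_one
    · intro p hp
      exact one_sub_nonneg Q p (mem_pz.1 hp).2
    · intro p _
      have : 0 ≤ (nuB Q p : ℝ) / p := by positivity
      linarith
  have hvl1 : vl ≤ 1 := hVlw.trans hVw1
  have hsplit := Vq_split Q w y hwy
  have hVt0 := Vt_nonneg Q w y
  have hVtu : Vt Q w y ≤ u := by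
    have h1 : Vq Q w * Vt Q w y ≤ vl * u := by rw [← hsplit]; exact hVv
    have h2 : vl * Vt Q w y ≤ vl * u := (mul_le_mul_of_nonneg_right hVlw hVt0).trans h1
    exact le_of_mul_le_mul_left h2 hvl0
  have hT0r : (0 : ℝ) ≤ T := Nat.cast_nonneg T
  -- the pair sum
  have hηK : (K : ℝ) * (η / (K + 1)) ≤ η := by
    rw [← mul_div_assoc, div_le_iff₀ (by positivity)]
    have : (0 : ℝ) ≤ K := Nat.cast_nonneg K
    nlinarith
  have hexp : Real.exp η * (Real.exp η + η) * T - T ≤ 12 * η * T := by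
    have h5 := exp_bound η hη0.le hη1
    have h6 := mul_le_mul_of_nonneg_right h5 hT0r
    linarith
  have hpair : ∑ t ∈ Icc 1 T, (Fp Q K w y t - 1) ≤ 12 * η * T := by
    have h4 := havg T hT (CoG Q) (coll_gen Q c hQ w) y (η / (K + 1)) (by positivity) hηK hlarge
    rw [sum_sub_distrib, sum_const, Nat.card_Icc, Nat.add_sub_cancel, nsmul_eq_mul, mul_one]
    have h7 : ∑ t ∈ Icc 1 T, Fp Q K w y t ≤ Real.exp η * (Real.exp η + η) * T := h4
    linarith
  have hpairP : ∑ t ∈ Icc 1 T, (Fq P Q K w y t - 1) ≤ 12 * η * T := by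
    have h4 := havg T hT (CoP P Q) (coll_P P Q c hP hQ w) y (η / (K + 1)) (by positivity) hηK hlargeP
    rw [sum_sub_distrib, sum_const, Nat.card_Icc, Nat.add_sub_cancel, nsmul_eq_mul, mul_one]
    have h7 : ∑ t ∈ Icc 1 T, Fq P Q K w y t ≤ Real.exp η * (Real.exp η + η) * T := h4
    linarith
  have hTV1 : T * Vt Q w y * vl ≤ x0 + 1 := by
    calc T * Vt Q w y * vl ≤ T * Vt Q w y * Vq Q w := mul_le_mul_of_nonneg_left hVlw (by positivity)
      _ = T * Vq Q y := by rw [hsplit]; ring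
      _ ≤ x0 + 1 := by linarith
  have hTV : (T * Vt Q w y) ^ 2 * vl ^ 2 ≤ (x0 + 1) ^ 2 := by
    rw [← mul_pow]
    exact pow_le_pow_left₀ (by positivity) hTV1 2
  have hSg : ∀ B' : Finset ℕ, B' ⊆ Icc 1 T → Vt Q w y ^ 2 * Sg Q K w y B' ≤ η3 := by
    intro B' hB'
    have h1 := Sg_le Q K w y T B' hB'
    have h2 : Sg Q K w y B' ≤ T * (12 * η * T) := h1.trans (mul_le_mul_of_nonneg_left hpair hT0r)
    calc Vt Q w y ^ 2 * Sg Q K w y B' ≤ Vt Q w y ^ 2 * (T * (12 * η * T)) :=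
          mul_le_mul_of_nonneg_left h2 (by positivity)
      _ = 12 * (T * Vt Q w y) ^ 2 * η := by ring
      _ ≤ 12 * (T * Vt Q w y) ^ 2 * (θ * vl ^ 2) := mul_le_mul_of_nonneg_left hηθ (by positivity)
      _ = 12 * θ * ((T * Vt Q w y) ^ 2 * vl ^ 2) := by ring
      _ ≤ 12 * θ * (x0 + 1) ^ 2 := mul_le_mul_of_nonneg_left hTV (by positivity)
      _ = η3 := by rw [hθ]; field_simp
  have hSp : ∀ B' : Finset ℕ, B' ⊆ Icc 1 T → Vt Q w y * Sp P Q K w y B' ≤ η3 := by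
    intro B' hB'
    have h1 : Sp P Q K w y B' ≤ 12 * η * T := by
      refine le_trans ?_ hpairP
      unfold Sp
      apply sum_le_sum_of_subset_of_nonneg hB'
      intro t _ _
      have := Fq_ge P Q K w y t
      linarith
    calc Vt Q w y * Sp P Q K w y B' ≤ Vt Q w y * (12 * η * T) := mul_le_mul_of_nonneg_left h1 hVt0
      _ = 12 * (T * Vt Q w y) * η := by ring
      _ ≤ 12 * (T * Vt Q w y) * (θ * vl ^ 2) := mul_le_mul_of_nonneg_left hηθ (by positivity)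
      _ = 12 * θ * (T * Vt Q w y * vl) * vl := by ring
      _ ≤ 12 * θ * (x0 + 1) * 1 := by
          apply mul_le_mul _ hvl1 hvl0.le (by positivity)
          exact mul_le_mul_of_nonneg_left hTV1 (by positivity)
      _ ≤ 12 * θ * (x0 + 1) * (x0 + 1) := by
          apply mul_le_mul_of_nonneg_left (by linarith) (by positivity)
      _ = η3 := by rw [hθ]; field_simp
  obtain ⟨x, hx⟩ : ∃ x, x = β * Vq Q y := ⟨_, rfl⟩
  rw [← hx]
  have hVy0 := Vq_nonneg Q y
  have hx00 : 0 ≤ x := by rw [hx]; positivity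
  have hxx0 : x ≤ x0 := by
    rw [hx]
    exact (mul_le_mul_of_nonneg_right hβT hVy0).trans hTx
  -- the classes
  have hterm : ∀ a ∈ range (Mw w), |(((cl w (Fx P y Om) a).filter (fun n => NB Q y B n ∈ A)).card : ℝ) -
      (cl w (Fx P y Om) a).card * Po x A| ≤ 5 / 8 * ε * (cl w (Fx P y Om) a).card := by
    intro a _
    obtain ⟨hcl1, hcl2⟩ := Fx_cl P c hP w y hwy Om a
    by_cases ha : Sf P w a
    · rw [hcl1 ha]
      have hc0 : (0 : ℝ) ≤ (St P w y (cl w Om a)).card := Nat.cast_nonneg _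
      have hxa : |(Ba Q w a B).card * Vt Q w y - x| ≤ min 1 (ε / 8) := by
        have h1 := hreg a
        have h2 : ((B.filter (fun h => Sf Q w (a + h))).card : ℝ) = (Ba Q w a B).card := rfl
        rw [h2] at h1
        have e : ((Ba Q w a B).card : ℝ) * Vt Q w y - x =
            (((Ba Q w a B).card : ℝ) - β * Vq Q w) * Vt Q w y := by
          rw [hx, hsplit]
          ring
        rw [e, abs_mul, abs_of_nonneg hVt0]
        exact (mul_le_mul h1 hVtu hVt0 hM1).trans hu2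
      have hxa1 := (abs_le.1 (hxa.trans (min_le_left _ _))).2
      have hBs := (Ba_sub Q w a B).trans hB
      have h3 := hcls w hwa P Q y a B (cl w Om a) hP hQ hwy (by
          intro n hn
          unfold Pool.Agent.Q263.PL.cl at hn
          rw [mem_filter] at hn
          exact hn.2) (hFL a) (hVtu.trans hu1) (by linarith) (by
          rw [← hK]
          exact hSg _ hBs) (by
          rw [← hK]
          exact hSp _ hBs) A
      have h4 := Po_diff ((Ba Q w a B).card * Vt Q w y) x (by positivity) hx00 A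
      have h5 : |Po ((Ba Q w a B).card * Vt Q w y) A - Po x A| ≤ ε / 8 :=
        h4.trans (hxa.trans (min_le_right _ _))
      have h6 : |((St P w y (cl w Om a)).card : ℝ) * Po ((Ba Q w a B).card * Vt Q w y) A -
          (St P w y (cl w Om a)).card * Po x A| ≤ (St P w y (cl w Om a)).card * (ε / 8) := by
        rw [← mul_sub, abs_mul, abs_of_nonneg hc0]
        exact mul_le_mul_of_nonneg_left h5 hc0
      have h7 := abs_sub_le (((St P w y (cl w Om a)).filter (fun n => NB Q y B n ∈ A)).card : ℝ)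
        ((St P w y (cl w Om a)).card * Po ((Ba Q w a B).card * Vt Q w y) A)
        ((St P w y (cl w Om a)).card * Po x A)
      linarith
    · rw [hcl2 ha]
      simp
  have hsumc : ((Fx P y Om).card : ℝ) = ∑ a ∈ range (Mw w), ((cl w (Fx P y Om) a).card : ℝ) := by
    have := cl_sum w (Fx P y Om) (fun _ => 1)
    simp only [sum_const, nsmul_eq_mul, mul_one] at this
    exact this
  have hsumf : (((Fx P y Om).filter (fun n => NB Q y B n ∈ A)).card : ℝ) =
      ∑ a ∈ range (Mw w), (((cl w (Fx P y Om) a).filter (fun n => NB Q y B n ∈ A)).card : ℝ) := by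
    have := cl_sum w (Fx P y Om) (fun n => if NB Q y B n ∈ A then 1 else 0)
    simp only [← Finset.sum_filter, sum_const, nsmul_eq_mul, mul_one] at this
    exact this
  rw [hsumf]
  have e1 : ((Fx P y Om).card : ℝ) * Po x A =
      ∑ a ∈ range (Mw w), ((cl w (Fx P y Om) a).card : ℝ) * Po x A := by
    rw [← sum_mul, ← hsumc]
  rw [e1, ← sum_sub_distrib]
  refine (abs_sum_le_sum_abs _ _).trans ((sum_le_sum hterm).trans ?_)
  rw [← mul_sum, ← hsumc]
  have hO0 : (0 : ℝ) ≤ (Fx P y Om).card := Nat.cast_nonneg _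
  nlinarith

end Pool.Agent.Q263.PK
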