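import Pool.Agent.Q263.PK.Win
import Pool.Agent.Q263.PL.Poly

set_option autoImplicit false

/-!
# The conditional Poisson law: systems of polynomials
-/

namespace Pool.Agent.Q263.PK

open Polynomial Finset Filter Pool.Agent.H373R2.T7 Pool.Agent.W123.RP Pool.Agent.W123.RU
  Pool.Agent.W123.RU.Poly Pool.Agent.TH464.PO
open Pool.Agent.Q236.ML
open Pool.Agent.Q263.PL
open Pool.Agent.Q263.MD (Dig)
open Pool.Agent.Q263.SW (Xt Pd asy card_all)

variable {ι ι' : Type} [Fintype ι] [Fintype ι']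

/-- no polynomial of the second system is a translate of one of the first -/
def NoTr2 (g : ι' → ℤ[X]) (f : ι → ℤ[X]) : Prop :=
  ∀ (i : ι') (j : ι) (t : ℕ), 1 ≤ t → g i ≠ (f j).comp (X + C (t : ℤ))

open Classical in
/-- very few large primes divide a collision -/
lemma large_small2 (g : ι' → ℤ[X]) (hg : Sys g) (f : ι → ℤ[X]) (hf : Sys f) (hT : NoTr2 g f) (η : ℝ)
    (hη : 0 < η) : ∃ T1 : ℕ, ∀ T : ℕ, T1 ≤ T → ∀ y : ℕ, ∀ t ∈ Icc 1 T,
      ((((pz y).filter (fun p : ℕ => T < p ∧ CoP (Q g) (Q f) p t)).card : ℕ) : ℝ) ≤ η * T := by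
  choose R hR1 hR2 using fun (i : ι') (j : ι) => ncolR (g i) (f j) (hg.irr i) (hf.irr j) (hg.deg i)
    (hf.deg j) (hg.lead i) (hf.lead j)
  obtain ⟨S, hS⟩ : ∃ S : ℤ[X], S = ∏ i, ∏ j, R i j := ⟨_, rfl⟩
  obtain ⟨K, D, hKD⟩ := eval_bound S
  obtain ⟨T2, hT2⟩ : ∃ T2 : ℕ, ((D : ℝ) + 1) / η ≤ T2 := exists_nat_ge _
  refine ⟨max T2 ((K + 1) * 2 ^ D + 2), ?_⟩
  intro T hTT y t ht
  have h2 : T2 ≤ T := (le_max_left _ _).trans hTT
  have h3 : (K + 1) * 2 ^ D + 2 ≤ T := (le_max_right _ _).trans hTT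
  rw [mem_Icc] at ht
  have hne : S.eval (t : ℤ) ≠ 0 := by
    rw [hS, eval_prod, Finset.prod_ne_zero_iff]
    intro i _
    rw [eval_prod, Finset.prod_ne_zero_iff]
    intro j _
    exact hR1 i j t (hT i j t ht.1)
  obtain ⟨F, hF⟩ : ∃ F, F = (pz y).filter (fun p : ℕ => T < p ∧ CoP (Q g) (Q f) p t) := ⟨_, rfl⟩
  rw [← hF]
  have hpow := pow_card_le F (S.eval (t : ℤ)).natAbs (Int.natAbs_ne_zero.2 hne) (fun p hp => by
    rw [hF, mem_filter] at hp
    obtain ⟨hp1, hp2, m, ⟨i, hi⟩, ⟨j, hj⟩⟩ := hp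
    refine ⟨(mem_pz.1 hp1).2, ?_⟩
    push_cast at hj
    have h4 := hR2 i j t m p hi hj
    rw [← Int.natCast_dvd, hS, eval_prod]
    refine h4.trans ((?_ : _ ∣ (∏ j, R i j).eval (t : ℤ)).trans (Finset.dvd_prod_of_mem _ (mem_univ i)))
    rw [eval_prod]
    exact Finset.dvd_prod_of_mem _ (mem_univ j)) (T : ℝ) (Nat.cast_nonneg _) (fun p hp => by
      rw [hF, mem_filter] at hp
      exact_mod_cast hp.2.1.le)
  have hTr : (2 : ℝ) ≤ T := by exact_mod_cast (by omega : 2 ≤ T)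
  have hT0 : (0 : ℝ) < T := by linarith
  have htr : (t : ℝ) ≤ T := by exact_mod_cast ht.2
  have ht0 : (0 : ℝ) ≤ t := Nat.cast_nonneg t
  have hbound : (((S.eval (t : ℤ)).natAbs : ℕ) : ℝ) ≤ K * (2 * T) ^ D := by
    have e1 : (((S.eval (t : ℤ)).natAbs : ℕ) : ℝ) = |((S.eval (t : ℤ) : ℤ) : ℝ)| := by
      rw [Nat.cast_natAbs, Int.cast_abs]
    rw [e1]
    refine (hKD t).trans ?_
    have e2 : |((t : ℤ) : ℝ)| = (t : ℝ) := by
      rw [Int.cast_natCast, abs_of_nonneg ht0]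
    rw [e2]
    gcongr
    linarith
  have hFD : F.card ≤ D + 1 := by
    by_contra hcon
    rw [not_le] at hcon
    have h5 : (T : ℝ) ^ (D + 2) ≤ K * (2 * T) ^ D :=
      (pow_le_pow_right₀ (by linarith) (by omega)).trans (hpow.trans hbound)
    have h6 : K * (2 * (T : ℝ)) ^ D = (K * 2 ^ D) * (T : ℝ) ^ D := by
      rw [mul_pow]
      ring
    rw [h6, pow_add, mul_comm ((T : ℝ) ^ D)] at h5
    have h7 := le_of_mul_le_mul_right h5 (by positivity)
    have h8 : ((((K + 1) * 2 ^ D + 2 : ℕ)) : ℝ) ≤ T := by exact_mod_cast h3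
    push_cast at h8
    have h9 : (0 : ℝ) < 2 ^ D := by positivity
    nlinarith
  have hFr : (F.card : ℝ) ≤ D + 1 := by exact_mod_cast hFD
  have h4 : ((D : ℝ) + 1) / η ≤ T := hT2.trans (by exact_mod_cast h2)
  rw [div_le_iff₀ hη] at h4
  linarith

open Classical in
/-- **The conditional Poisson law for systems of polynomials** in the windows after the integers with
restricted digits at which another system has no small prime factor. -/
theorem poly_win2 {b : ℕ} (hb : 2 ≤ b) [Nonempty ι] (g : ι' → ℤ[X]) (hg : Sys g) (f : ι → ℤ[X])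
    (hf : Sys f) (hT : NoTr f) (hT2 : NoTr2 g f) (x0 ε : ℝ) (hε : 0 < ε) :
    ∃ L y₀ k₀ : ℕ, 1 ≤ L ∧ ∀ k : ℕ, k₀ ≤ k → ∀ D : Fin k → Finset ℕ, (∀ i, ∀ d ∈ D i, d < b) →
      (∀ i, ∃ c ∈ D i, ∃ c' ∈ D i, c < c' ∧ ∀ p : ℕ, p.Prime → p ∣ c' - c → p ∣ b) →
      ∀ y : ℕ, y₀ ≤ y → y ^ L ≤ b ^ k → ∀ T : ℕ, T * Vq (Q f) y ≤ x0 →
      ∀ A : Finset ℕ, |(((Fx (Q g) y (Dig b k D)).filter (fun n => Nw (Q f) y T n ∈ A)).card : ℝ) -
          (Fx (Q g) y (Dig b k D)).card * Po (T * Vq (Q f) y) A| ≤ ε * (Fx (Q g) y (Dig b k D)).card := by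
  obtain ⟨c, hc, hQ⟩ := exists_c f hf
  obtain ⟨c', hc', hQ'⟩ := exists_c g hg
  have hP1 : PerB (Q g) (c + c') := ⟨hQ'.per, fun p hp => (hQ'.few p hp).trans (by omega)⟩
  have hQ1 : PerB (Q f) (c + c') := ⟨hQ.per, fun p hp => (hQ.few p hp).trans (by omega)⟩
  obtain ⟨L, k₀, T0, w, η', κ, hL, hη', hκ, hmain⟩ := law_win2 hb (c + c') x0 ε hε
  obtain ⟨T1, hT1⟩ := large_small f hf hT η' hη'
  obtain ⟨T2, hT2'⟩ := large_small2 g hg f hf hT2 η' hη'
  obtain ⟨y₀, hy₀, hlong⟩ := long_window f hf κ hκ (max T0 (max T1 T2))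
  refine ⟨L, max y₀ w, k₀, hL, ?_⟩
  intro k hk D hD hD2 y hy hyL T hTx A
  obtain ⟨hVκ, hlong'⟩ := hlong y (by omega)
  refine hmain k hk D hD hD2 y (Q g) (Q f) hyL hP1 hQ1 (fun p hp => Poly.adm f hf p hp) (by omega)
    hVκ ?_ T hTx A
  intro T' h1 _
  have h2 := hlong' T' h1
  have h3 : T0 ≤ T' := (le_max_left _ _).trans h2
  have h4 : T1 ≤ T' := ((le_max_left _ _).trans (le_max_right _ _)).trans h2
  have h5 : T2 ≤ T' := ((le_max_right _ _).trans (le_max_right _ _)).trans h2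
  exact ⟨h3, fun t ht => ⟨hT1 T' h4 y t ht, hT2' T' h5 y t ht⟩⟩

open Classical in
/-- the number of the elements which avoid the conditions -/
theorem Fx_asy {b : ℕ} (hb : 2 ≤ b) (c : ℕ) (ε : ℝ) (hε : 0 < ε) :
    ∃ L k₀ : ℕ, 1 ≤ L ∧ ∀ k : ℕ, k₀ ≤ k → ∀ D : Fin k → Finset ℕ, (∀ i, ∀ d ∈ D i, d < b) →
      (∀ i, ∃ c ∈ D i, ∃ c' ∈ D i, c < c' ∧ ∀ p : ℕ, p.Prime → p ∣ c' - c → p ∣ b) →
      ∀ y : ℕ, y ^ L ≤ b ^ k → ∀ P : ℕ → ℕ → Prop, PerB P c →
      |((Fx P y (Dig b k D)).card : ℝ) - Xt b k D (fun p => (range p).filter (fun r => P p r)) y| ≤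
        ε * Xt b k D (fun p => (range p).filter (fun r => P p r)) y := by
  obtain ⟨L, k₀, hL, h⟩ := asy hb c ε hε
  refine ⟨L, k₀, hL, ?_⟩
  intro k hk D hD hD2 y hy P hP
  have h1 := h k hk D hD hD2 y hy (fun p => (range p).filter (fun r => P p r)) (fun p hp _ => by
    refine ⟨fun r hr => by rw [mem_filter, mem_range] at hr; exact hr.1, ?_⟩
    have := hP.few p hp
    unfold nuB at this
    convert this)
  have e : Fx P y (Dig b k D) = (Dig b k D).filter (fun m => ∀ p : ℕ, p.Prime → p ≤ y →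
      m % p ∉ (range p).filter (fun r => P p r)) := by
    unfold Fx
    apply filter_congr
    intro m _
    unfold Sf
    constructor
    · intro h p hp hpy hm
      rw [mem_filter] at hm
      exact h p (mem_pz.2 ⟨hpy, hp⟩) ((hP.per p m).2 hm.2)
    · intro h p hp hq
      have hpp := (mem_pz.1 hp).2
      exact h p hpp (mem_pz.1 hp).1 (mem_filter.2 ⟨mem_range.2 (Nat.mod_lt _ hpp.pos),
        (hP.per p m).1 hq⟩)
  rw [e]
  exact h1

open Classical in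
/-- a lower bound for their number -/
theorem Fx_low {b : ℕ} (hb : 2 ≤ b) (c : ℕ) :
    ∃ L k₀ : ℕ, 1 ≤ L ∧ ∀ k : ℕ, k₀ ≤ k → ∀ D : Fin k → Finset ℕ, (∀ i, ∀ d ∈ D i, d < b) →
      (∀ i, ∃ c ∈ D i, ∃ c' ∈ D i, c < c' ∧ ∀ p : ℕ, p.Prime → p ∣ c' - c → p ∣ b) →
      ∀ y : ℕ, y ^ L ≤ b ^ k → ∀ P : ℕ → ℕ → Prop, PerB P c →
      (∃ i : Fin k, (i : ℕ) = 0 ∧ ∃ d ∈ D i, ∀ p : ℕ, p.Prime → p ∣ b → ¬ P p d) →
      (Dig b k D).card * Vq P y / (2 * b) ≤ ((Fx P y (Dig b k D)).card : ℝ) := by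
  obtain ⟨L, k₀, hL, h⟩ := Fx_asy hb c (1 / 2) (by norm_num)
  refine ⟨L, k₀ + 1, hL, ?_⟩
  intro k hk D hD hD2 y hy P hP ⟨i, hi, d, hd, hdP⟩
  have hk0 : 0 < k := by omega
  have hb0 : (0 : ℝ) < b := by exact_mod_cast (by omega : 0 < b)
  have h1 := (abs_le.1 (h k (by omega) D hD hD2 y hy P hP)).1
  obtain ⟨X, hX⟩ : ∃ X, X = Xt b k D (fun p => (range p).filter (fun r => P p r)) y := ⟨_, rfl⟩
  rw [← hX] at h1
  have h2 : (1 / 2) * X ≤ ((Fx P y (Dig b k D)).card : ℝ) := by linarith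
  refine le_trans ?_ h2
  have hi' : i = ⟨0, hk0⟩ := Fin.ext hi
  rw [hi'] at hd
  have hprod : Vq P y ≤ ∏ p ∈ (range (y + 1)).filter (fun p => p.Prime ∧ ¬ p ∣ b),
      (1 - ((((range p).filter (fun r => P p r)).card : ℕ) : ℝ) / p) := by
    have e1 : ∏ p ∈ (range (y + 1)).filter (fun p => p.Prime ∧ ¬ p ∣ b),
        (1 - ((((range p).filter (fun r => P p r)).card : ℕ) : ℝ) / p) =
        ∏ p ∈ (range (y + 1)).filter (fun p => p.Prime ∧ ¬ p ∣ b), (1 - (nuB P p : ℝ) / p) := by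
      apply prod_congr rfl
      intro p _
      unfold nuB
      rfl
    rw [e1]
    have hsub : (range (y + 1)).filter (fun p => p.Prime ∧ ¬ p ∣ b) ⊆ pz y := by
      intro p hp
      rw [mem_filter, mem_range] at hp
      exact mem_pz.2 ⟨by omega, hp.2.1⟩
    unfold Vq
    rw [← Finset.prod_sdiff hsub]
    refine mul_le_of_le_one_left (prod_nonneg fun p hp => ?_) (prod_le_one (fun p hp => ?_) fun p hp => ?_)
    · exact one_sub_nonneg P p (mem_pz.1 (hsub hp)).2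
    · exact one_sub_nonneg P p (mem_pz.1 (mem_sdiff.1 hp).1).2
    · have : 0 ≤ (nuB P p : ℝ) / p := by positivity
      linarith
  have hV0 := Vq_nonneg P y
  have hg : (1 : ℝ) ≤ (((if hk : 0 < k then D ⟨0, hk⟩ else ∅).filter
      (fun d => ∀ p : ℕ, p.Prime → p ∣ b → p ≤ y → d % p ∉ (range p).filter (fun r => P p r))).card : ℕ) := by
    have : 0 < ((if hk : 0 < k then D ⟨0, hk⟩ else ∅).filter
      (fun d => ∀ p : ℕ, p.Prime → p ∣ b → p ≤ y → d % p ∉ (range p).filter (fun r => P p r))).card := by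
      rw [card_pos]
      refine ⟨d, ?_⟩
      rw [mem_filter, dif_pos hk0]
      refine ⟨hd, fun p hp hpb _ hm => ?_⟩
      rw [mem_filter] at hm
      exact hdP p hp hpb ((hP.per p d).2 hm.2)
    exact_mod_cast this
  have hc : ((Dig b k D).card : ℝ) ≤ b * Pd D := by
    rw [card_all hk0 D hD]
    push_cast
    apply mul_le_mul_of_nonneg_right _ (Nat.cast_nonneg _)
    have : (D ⟨0, hk0⟩).card ≤ b := by
      have : D ⟨0, hk0⟩ ⊆ Finset.range b := fun d hd => Finset.mem_range.2 (hD _ d hd)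
      simpa using Finset.card_le_card this
    exact_mod_cast this
  have hX2 : Pd D * Vq P y ≤ X := by
    rw [hX]
    unfold Xt
    have h0 : (0 : ℝ) ≤ Pd D := Nat.cast_nonneg _
    calc (Pd D : ℝ) * Vq P y ≤ 1 * Pd D * ∏ p ∈ (range (y + 1)).filter (fun p => p.Prime ∧ ¬ p ∣ b),
          (1 - ((((range p).filter (fun r => P p r)).card : ℕ) : ℝ) / p) := by
          rw [one_mul]
          exact mul_le_mul_of_nonneg_left hprod h0
      _ ≤ _ := by
        apply mul_le_mul_of_nonneg_right _ (hV0.trans hprod)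
        exact mul_le_mul_of_nonneg_right hg h0
  rw [div_le_iff₀ (by positivity)]
  calc ((Dig b k D).card : ℝ) * Vq P y ≤ b * Pd D * Vq P y := mul_le_mul_of_nonneg_right hc hV0
    _ = b * (Pd D * Vq P y) := by ring
    _ ≤ b * X := mul_le_mul_of_nonneg_left hX2 hb0.le
    _ = 1 / 2 * X * (2 * b) := by ring

end Pool.Agent.Q263.PK
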