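import Pool.Agent.Q263.PK.Deg

set_option autoImplicit false

/-!
# The number of the roots of quadratic polynomials
-/

namespace Pool.Agent.Q263.PK.Gen

open Polynomial Finset
open scoped NumberTheorySymbols

open Classical in
lemma rho_quad (a b c : ℤ) (p : ℕ) (hp : p.Prime) (h2 : p ≠ 2) (ha : ¬ (p : ℤ) ∣ a) :
    (rho (fun m => a * (m : ℤ) ^ 2 + b * m + c) p : ℤ) = 1 + J(b ^ 2 - 4 * a * c | p) := by
  have : Fact p.Prime := ⟨hp⟩
  have h3' := legendreSym.card_sqrts p h2 (b ^ 2 - 4 * a * c)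
  rw [jacobiSym.legendreSym.to_jacobiSym] at h3'
  have h2ne : (2 : ZMod p) ≠ 0 := by
    intro h
    have h5 : ((2 : ℕ) : ZMod p) = 0 := by exact_mod_cast h
    rw [ZMod.natCast_eq_zero_iff] at h5
    exact h2 ((Nat.prime_dvd_prime_iff_eq hp Nat.prime_two).1 h5)
  have hane : (a : ZMod p) ≠ 0 := fun h => ha ((ZMod.intCast_zmod_eq_zero_iff_dvd _ _).1 h)
  have h4ne : (4 : ZMod p) ≠ 0 := by
    have : (4 : ZMod p) = 2 * 2 := by norm_num
    rw [this]
    exact mul_ne_zero h2ne h2ne
  have h2a : (2 * a : ZMod p) ≠ 0 := mul_ne_zero h2ne hane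
  have h4a : (4 * a : ZMod p) ≠ 0 := mul_ne_zero h4ne hane
  have h4 : ((range p).filter (fun r : ℕ => (p : ℤ) ∣ a * (r : ℤ) ^ 2 + b * r + c)).card =
      ({x : ZMod p | x ^ 2 = ((b ^ 2 - 4 * a * c : ℤ) : ZMod p)}.toFinset).card := by
    apply Finset.card_bij (fun (r : ℕ) _ => 2 * (a : ZMod p) * (r : ZMod p) + b)
    · intro r hr
      rw [Finset.mem_filter] at hr
      rw [Set.mem_toFinset, Set.mem_ofPred_eq]
      have h5 : ((a * (r : ℤ) ^ 2 + b * r + c : ℤ) : ZMod p) = 0 :=
        (ZMod.intCast_zmod_eq_zero_iff_dvd _ _).2 hr.2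
      push_cast at h5 ⊢
      linear_combination (4 * (a : ZMod p)) * h5
    · intro r hr s hs h
      rw [Finset.mem_filter, Finset.mem_range] at hr hs
      have h5 : (r : ZMod p) = s := by
        have h6 : (2 * (a : ZMod p)) * r = (2 * a) * s := by linear_combination h
        exact mul_left_cancel₀ h2a h6
      have h7 := congrArg ZMod.val h5
      rwa [ZMod.val_natCast_of_lt hr.1, ZMod.val_natCast_of_lt hs.1] at h7
    · intro x hx
      rw [Set.mem_toFinset, Set.mem_ofPred_eq] at hx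
      refine ⟨((x - b) / (2 * a)).val, ?_, ?_⟩
      · rw [Finset.mem_filter, Finset.mem_range]
        refine ⟨ZMod.val_lt _, ?_⟩
        rw [← ZMod.intCast_zmod_eq_zero_iff_dvd]
        push_cast
        rw [ZMod.natCast_zmod_val]
        obtain ⟨z, hz⟩ : ∃ z : ZMod p, z = (x - b) / (2 * a) := ⟨_, rfl⟩
        have hz2 : 2 * (a : ZMod p) * z = x - b := by
          rw [hz]
          exact mul_div_cancel₀ _ h2a
        rw [← hz]
        push_cast at hx
        have h8 : 4 * (a : ZMod p) * (a * z ^ 2 + b * z + c) = 0 := by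
          have h9 : x = 2 * (a : ZMod p) * z + b := by rw [hz2]; ring
          rw [h9] at hx
          linear_combination hx
        exact (mul_eq_zero.1 h8).resolve_left h4a
      · rw [ZMod.natCast_zmod_val, mul_div_cancel₀ _ h2a]
        ring
  unfold rho
  rw [h4, h3']
  ring

end Pool.Agent.Q263.PK.Gen
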