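import Pool.Agent.Q263.PK.Jnt

set_option autoImplicit false

/-!
# Sieve conditions with a fixed part: the average of the singular factors
-/

namespace Pool.Agent.Q263.PK

open Finset Filter Pool.Agent.H373R2.T7 Pool.Agent.W123.RP Pool.Agent.W123.RU Pool.Agent.TH464.PO
open Pool.Agent.Q236.CP Pool.Agent.Q236.ML

open Classical in
/-- the sum over the elements of the collision factors with the fixed condition -/
noncomputable def Sp (P Q : ℕ → ℕ → Prop) (K w y : ℕ) (B : Finset ℕ) : ℝ :=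
  ∑ t ∈ B, (Fq P Q K w y t - 1)

/-- the exponent -/
def Kx (R c : ℕ) : ℕ := (1 + 2 * (R * c)) ^ (R ^ 2 + R) - 1

open Classical in
/-- the average of the large singular factors over the subsets of `B` -/
lemma sing_cls2 (P Q : ℕ → ℕ → Prop) (c : ℕ) (hP : PerB P c) (hQ : PerB Q c) (w y k R : ℕ) (hk : k ≤ R)
    (hw : 1 ≤ w) (hbig : 2 * ((1 + R) * c) ≤ w) (B : Finset ℕ) :
    |∑ J ∈ powersetCard k B, Vt (PJ P Q J) w y - Vt P w y * ((B.card * Vt Q w y) ^ k / k.factorial)| ≤
      Vt P w y * ((1 + B.card * Vt Q w y) ^ R * ((((1 + R) * c : ℕ) : ℝ) ^ 2 * 2 / w + R ^ 2 * Vt Q w y +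
        Vt Q w y ^ 2 * Sg Q (Kx R c) w y B + Vt Q w y * Sp P Q (Kx R c) w y B)) := by
  obtain ⟨V, hV⟩ : ∃ V, V = Vt Q w y := ⟨_, rfl⟩
  have hV0 : 0 ≤ V := by rw [hV]; exact Vt_nonneg Q w y
  obtain ⟨Vp, hVp⟩ : ∃ Vp, Vp = Vt P w y := ⟨_, rfl⟩
  have hVp0 : 0 ≤ Vp := by rw [hVp]; exact Vt_nonneg P w y
  obtain ⟨g, hg⟩ : ∃ g : ℕ → ℝ, g = fun t => Fp Q (Kx R c) w y t - 1 := ⟨_, rfl⟩
  have hg0 : ∀ t, 0 ≤ g t := by
    intro t
    rw [hg]
    have := Fp_ge Q (Kx R c) w y t
    simp only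
    linarith
  obtain ⟨g', hg'⟩ : ∃ g' : ℕ → ℝ, g' = fun t => Fq P Q (Kx R c) w y t - 1 := ⟨_, rfl⟩
  have hg'0 : ∀ t, 0 ≤ g' t := by
    intro t
    rw [hg']
    have := Fq_ge P Q (Kx R c) w y t
    simp only
    linarith
  have hgx : Sg Q (Kx R c) w y B = ∑ x ∈ prs B, g (x.2 - x.1) := by
    rw [hg]
    rfl
  have hgx' : Sp P Q (Kx R c) w y B = ∑ t ∈ B, g' t := by
    rw [hg']
    rfl
  rw [hgx, hgx', ← hV, ← hVp]
  obtain ⟨S, hS⟩ : ∃ S, S = ∑ x ∈ prs B, g (x.2 - x.1) := ⟨_, rfl⟩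
  have hS0 : 0 ≤ S := by rw [hS]; exact sum_nonneg fun x _ => hg0 _
  obtain ⟨S', hS'⟩ : ∃ S', S' = ∑ t ∈ B, g' t := ⟨_, rfl⟩
  have hS'0 : 0 ≤ S' := by rw [hS']; exact sum_nonneg fun x _ => hg'0 _
  rw [← hS, ← hS']
  have hwr : (0 : ℝ) < w := by exact_mod_cast hw
  have hcard : ((powersetCard k B).card : ℝ) = B.card.choose k := by rw [card_powersetCard]
  obtain ⟨E, hE⟩ : ∃ E : ℝ, E = (((1 + R) * c : ℕ) : ℝ) ^ 2 * 2 / w := ⟨_, rfl⟩
  have hE0 : 0 ≤ E := by rw [hE]; positivity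
  rw [← hE]
  have hlow : Vp * V ^ k * (1 - E) * B.card.choose k ≤ ∑ J ∈ powersetCard k B, Vt (PJ P Q J) w y := by
    have h1 : ∀ J ∈ powersetCard k B, Vp * V ^ k * (1 - E) ≤ Vt (PJ P Q J) w y := by
      intro J hJ
      rw [mem_powersetCard] at hJ
      have h2 := tail_lo2 P Q c hP hQ J w y hw (by
        rw [hJ.2]
        have : (1 + k) * c ≤ (1 + R) * c := Nat.mul_le_mul_right _ (by omega)
        omega)
      rw [hJ.2, ← hV, ← hVp] at h2
      refine le_trans ?_ h2
      apply mul_le_mul_of_nonneg_left _ (by positivity)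
      rw [hE]
      have h3 : (((1 + k) * c : ℕ) : ℝ) ^ 2 * 2 / w ≤ (((1 + R) * c : ℕ) : ℝ) ^ 2 * 2 / w := by
        apply div_le_div_of_nonneg_right _ hwr.le
        apply mul_le_mul_of_nonneg_right _ (by norm_num)
        apply pow_le_pow_left₀ (Nat.cast_nonneg _)
        exact_mod_cast Nat.mul_le_mul_right c (by omega : 1 + k ≤ 1 + R)
      linarith
    have h2 := card_nsmul_le_sum (powersetCard k B) (fun J => Vt (PJ P Q J) w y) _ h1
    rw [nsmul_eq_mul, hcard, mul_comm] at h2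
    exact h2
  have hup : ∑ J ∈ powersetCard k B, Vt (PJ P Q J) w y ≤
      Vp * (V ^ k * B.card.choose k) + Vp * (V ^ k * ∑ J ∈ powersetCard k B, ∑ x ∈ prs J, g (x.2 - x.1)) +
        Vp * (V ^ k * ∑ J ∈ powersetCard k B, ∑ t ∈ J, g' t) := by
    have h1 : ∀ J ∈ powersetCard k B, Vt (PJ P Q J) w y ≤
        Vp * V ^ k * (1 + (∑ x ∈ prs J, g (x.2 - x.1) + ∑ t ∈ J, g' t)) := by
      intro J hJ
      rw [mem_powersetCard] at hJ
      have hkR : k * c ≤ R * c := Nat.mul_le_mul_right _ hk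
      have hR1 : R * c ≤ (1 + R) * c := Nat.mul_le_mul_right _ (by omega)
      have h2 := tail_up2 P Q c hQ J w y (by
        rw [hJ.2]
        omega)
      rw [hJ.2, ← hV, ← hVp] at h2
      refine h2.trans ?_
      apply mul_le_mul_of_nonneg_left _ (by positivity)
      apply add_le_add le_rfl
      have hmono : (1 + 2 * (k * c)) ^ (k ^ 2 + k) - 1 ≤ Kx R c := by
        unfold Kx
        apply Nat.sub_le_sub_right
        calc (1 + 2 * (k * c)) ^ (k ^ 2 + k) ≤ (1 + 2 * (R * c)) ^ (k ^ 2 + k) := by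
              apply Nat.pow_le_pow_left
              omega
          _ ≤ (1 + 2 * (R * c)) ^ (R ^ 2 + R) := by
              apply Nat.pow_le_pow_right (by omega)
              have := Nat.pow_le_pow_left hk 2
              omega
      unfold gq
      apply add_le_add
      · apply sum_le_sum
        intro x _
        rw [hg]
        have h3 := Fp_mono Q _ _ w y (x.2 - x.1) hmono
        simp only
        linarith
      · apply sum_le_sum
        intro x _
        rw [hg']
        have h3 := Fq_mono P Q _ _ w y x hmono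
        simp only
        linarith
    refine (sum_le_sum h1).trans (le_of_eq ?_)
    rw [← mul_sum, sum_add_distrib, sum_const, nsmul_eq_mul, mul_one, hcard, sum_add_distrib]
    ring
  -- the powers
  have hB0 : (0 : ℝ) ≤ B.card := Nat.cast_nonneg _
  obtain ⟨L, hL⟩ : ∃ L : ℝ, L = B.card * V := ⟨_, rfl⟩
  have hL0 : 0 ≤ L := by rw [hL]; positivity
  rw [← hL]
  have hPw : ∀ j : ℕ, j ≤ R → L ^ j ≤ (1 + L) ^ R := by
    intro j hj
    calc L ^ j ≤ (1 + L) ^ j := pow_le_pow_left₀ hL0 (by linarith) j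
      _ ≤ (1 + L) ^ R := pow_le_pow_right₀ (by linarith) hj
  have hP0 : 0 ≤ (1 + L) ^ R := by positivity
  have hkR : (k : ℝ) ≤ R := by exact_mod_cast hk
  have hk0 : (0 : ℝ) ≤ k := Nat.cast_nonneg k
  have hnear := choose_near B.card k
  have hdiff : |V ^ k * B.card.choose k - L ^ k / k.factorial| ≤ (1 + L) ^ R * (R ^ 2 * V) := by
    have e1 : V ^ k * B.card.choose k - L ^ k / k.factorial =
        V ^ k * ((B.card.choose k : ℝ) - (B.card : ℝ) ^ k / k.factorial) := by
      rw [hL, mul_pow]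
      ring
    rw [e1, abs_mul, abs_of_nonneg (by positivity : 0 ≤ V ^ k)]
    rcases k with _ | k
    · simp
      positivity
    · calc V ^ (k + 1) * |(B.card.choose (k + 1) : ℝ) - (B.card : ℝ) ^ (k + 1) / (k + 1).factorial| ≤
            V ^ (k + 1) * (((k + 1 : ℕ) : ℝ) ^ 2 * (B.card : ℝ) ^ (k + 1 - 1)) :=
            mul_le_mul_of_nonneg_left hnear (by positivity)
        _ = L ^ k * (((k + 1 : ℕ) : ℝ) ^ 2 * V) := by
            rw [Nat.add_sub_cancel, hL, mul_pow, pow_succ]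
            ring
        _ ≤ (1 + L) ^ R * (R ^ 2 * V) := by
            apply mul_le_mul (hPw k (by omega)) _ (by positivity) hP0
            apply mul_le_mul_of_nonneg_right _ hV0
            exact pow_le_pow_left₀ (by positivity) hkR 2
  have hchoose : V ^ k * B.card.choose k ≤ (1 + L) ^ R := by
    calc V ^ k * B.card.choose k ≤ V ^ k * (B.card : ℝ) ^ k := by
          apply mul_le_mul_of_nonneg_left _ (by positivity)
          exact_mod_cast Nat.choose_le_pow B.card k
      _ = L ^ k := by rw [hL, mul_pow, mul_comm]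
      _ ≤ _ := hPw k hk
  have hpairs : V ^ k * ∑ J ∈ powersetCard k B, ∑ x ∈ prs J, g (x.2 - x.1) ≤ (1 + L) ^ R * (V ^ 2 * S) := by
    rcases Nat.lt_or_ge k 2 with h | h
    · have h0 : ∑ J ∈ powersetCard k B, ∑ x ∈ prs J, g (x.2 - x.1) = 0 := by
        apply sum_eq_zero
        intro J hJ
        rw [mem_powersetCard] at hJ
        have h1 : prs J = ∅ := by
          unfold prs
          rw [filter_eq_empty_iff]
          rintro ⟨a, b⟩ hx hab
          rw [mem_product] at hx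
          simp only at hx hab
          have h3 : ({a, b} : Finset ℕ) ⊆ J := by
            intro x hx'
            rw [mem_insert, mem_singleton] at hx'
            rcases hx' with rfl | rfl
            · exact hx.1
            · exact hx.2
          have h4 := card_le_card h3
          rw [card_pair (by omega : a ≠ b)] at h4
          omega
        rw [h1, sum_empty]
      rw [h0, mul_zero]
      positivity
    · have h1 := sum_prs_le k B (fun x => g (x.2 - x.1)) (fun x => hg0 _)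
      rw [← hS] at h1
      refine (mul_le_mul_of_nonneg_left h1 (by positivity)).trans ?_
      obtain ⟨j, rfl⟩ := Nat.exists_eq_add_of_le h
      have e2 : V ^ (2 + j) * ((B.card : ℝ) ^ (2 + j - 2) * S) = L ^ j * (V ^ 2 * S) := by
        rw [Nat.add_sub_cancel_left, hL, mul_pow, pow_add]
        ring
      rw [e2]
      exact mul_le_mul_of_nonneg_right (hPw j (by omega)) (by positivity)
  have hels : V ^ k * ∑ J ∈ powersetCard k B, ∑ t ∈ J, g' t ≤ (1 + L) ^ R * (V * S') := by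
    rcases k with _ | k
    · rw [powersetCard_zero, sum_singleton, sum_empty, mul_zero]
      positivity
    · have h1 := sum_el_le k B g' hg'0
      rw [← hS'] at h1
      refine (mul_le_mul_of_nonneg_left h1 (by positivity)).trans ?_
      have e2 : V ^ (k + 1) * ((B.card : ℝ) ^ k * S') = L ^ k * (V * S') := by
        rw [hL, mul_pow, pow_succ]
        ring
      rw [e2]
      exact mul_le_mul_of_nonneg_right (hPw k (by omega)) (by positivity)
  have hE1 : E * (V ^ k * B.card.choose k) ≤ E * (1 + L) ^ R := mul_le_mul_of_nonneg_left hchoose hE0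
  have hVS : 0 ≤ (1 + L) ^ R * (V ^ 2 * S) := by positivity
  have hVS' : 0 ≤ (1 + L) ^ R * (V * S') := by positivity
  have hEP : 0 ≤ E * (1 + L) ^ R := by positivity
  have hRV : 0 ≤ (1 + L) ^ R * (R ^ 2 * V) := by positivity
  rw [abs_le] at hdiff
  obtain ⟨T, hT⟩ : ∃ T, T = ∑ J ∈ powersetCard k B, Vt (PJ P Q J) w y := ⟨_, rfl⟩
  rw [← hT] at hlow hup ⊢
  obtain ⟨Ck, hCk⟩ : ∃ Ck : ℝ, Ck = V ^ k * B.card.choose k := ⟨_, rfl⟩
  rw [← hCk] at hE1 hdiff hup hchoose
  have hlow' : Vp * (Ck - E * Ck) ≤ T := by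
    refine le_trans (le_of_eq ?_) hlow
    rw [hCk]
    ring
  rw [abs_le]
  constructor
  · have h1 : Vp * (L ^ k / k.factorial - (1 + L) ^ R * (E + R ^ 2 * V + V ^ 2 * S + V * S')) ≤
        Vp * (Ck - E * Ck) := by
      apply mul_le_mul_of_nonneg_left _ hVp0
      have e : (1 + L) ^ R * (E + R ^ 2 * V + V ^ 2 * S + V * S') = E * (1 + L) ^ R +
          (1 + L) ^ R * (R ^ 2 * V) + (1 + L) ^ R * (V ^ 2 * S) + (1 + L) ^ R * (V * S') := by ring
      rw [e]
      linarith [hdiff.1]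
    have h2 := h1.trans hlow'
    rw [mul_sub] at h2
    linarith
  · have h1 : Vp * Ck + Vp * (V ^ k * ∑ J ∈ powersetCard k B, ∑ x ∈ prs J, g (x.2 - x.1)) +
        Vp * (V ^ k * ∑ J ∈ powersetCard k B, ∑ t ∈ J, g' t) ≤
        Vp * (L ^ k / k.factorial + (1 + L) ^ R * (E + R ^ 2 * V + V ^ 2 * S + V * S')) := by
      rw [← mul_add, ← mul_add]
      apply mul_le_mul_of_nonneg_left _ hVp0
      have e : (1 + L) ^ R * (E + R ^ 2 * V + V ^ 2 * S + V * S') = E * (1 + L) ^ R +
          (1 + L) ^ R * (R ^ 2 * V) + (1 + L) ^ R * (V ^ 2 * S) + (1 + L) ^ R * (V * S') := by ring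
      rw [e]
      linarith [hdiff.2]
    have h2 := hup.trans h1
    rw [mul_add] at h2
    linarith

end Pool.Agent.Q263.PK
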