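import Pool.Agent.Q263.PK.Gen
import Pool.Agent.Q263.SV.Alm

set_option autoImplicit false

/-!
# Uniform count of the values without small prime factors
-/

namespace Pool.Agent.Q263.PK.Gen

open Polynomial Finset Filter Pool.Agent.H373R2.T7 Pool.Agent.W123.RP Pool.Agent.W123.RU
  Pool.Agent.W123.RU.Poly Pool.Agent.TH464.PO
open Pool.Agent.Q263.PL
open Pool.Agent.Q263.PK
open Pool.Agent.Q263.MD (Dig)
open Pool.Agent.Q263.SW (Xt Pd asy card_all)

def PerG (G : ℕ → ℤ) : Prop := ∀ p m : ℕ, p.Prime → ((p : ℤ) ∣ G m ↔ (p : ℤ) ∣ G (m % p))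

def Pg (G : ℕ → ℤ) (p m : ℕ) : Prop := p.Prime ∧ (p : ℤ) ∣ G m

open Classical in
lemma nuB_Pg (G : ℕ → ℤ) (p : ℕ) (hp : p.Prime) : nuB (Pg G) p = rho G p := by
  unfold nuB rho
  congr 1
  apply filter_congr
  intro a _
  unfold Pg
  exact ⟨fun h => h.2, fun h => ⟨hp, h⟩⟩

lemma perB_Pg (G : ℕ → ℤ) (h : PerG G) (c : ℕ) (hc : ∀ p : ℕ, p.Prime → rho G p ≤ c) :
    PerB (Pg G) c := by
  refine ⟨fun p n => ?_, fun p hp => ?_⟩
  · unfold Pg
    constructor
    · rintro ⟨h1, h2⟩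
      exact ⟨h1, (h p n h1).1 h2⟩
    · rintro ⟨h1, h2⟩
      exact ⟨h1, (h p n h1).2 h2⟩
  · rw [nuB_Pg G p hp]
    exact hc p hp

open Classical in
lemma Start_eq (b k : ℕ) (D : Fin k → Finset ℕ) (G : ℕ → ℤ) (y : ℕ) :
    Fx (Pg G) y (Dig b k D) = Start b k D G y := by
  unfold Fx Start
  apply Finset.filter_congr
  intro n _
  unfold Sf Rough Pg
  constructor
  · intro h p hp hpy hd
    exact h p (mem_pz.2 ⟨hpy, hp⟩) ⟨hp, hd⟩
  · intro h p hp hd
    exact h p (mem_pz.1 hp).2 (mem_pz.1 hp).1 hd.2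

open Classical in
lemma Xt_eq (b k : ℕ) (hb : 2 ≤ b) (hk0 : 0 < k) (D : Fin k → Finset ℕ) (G : ℕ → ℤ) (hG : PerG G)
    (y : ℕ) (hby : b ≤ y) :
    Xt b k D (fun p => (range p).filter (fun r => Pg G p r)) y = mainTerm b k D G y := by
  unfold Xt mainTerm
  have e1 : ∏ p ∈ (range (y + 1)).filter (fun p => p.Prime ∧ ¬ p ∣ b),
      (1 - ((((range p).filter (fun r => Pg G p r)).card : ℕ) : ℝ) / p) =
      ∏ p ∈ (Finset.Icc 1 y).filter (fun p => p.Prime ∧ ¬ p ∣ b), (1 - (rho G p : ℝ) / (p : ℝ)) := by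
    have e0 : (range (y + 1)).filter (fun p => p.Prime ∧ ¬ p ∣ b) =
        (Finset.Icc 1 y).filter (fun p => p.Prime ∧ ¬ p ∣ b) := by
      ext p
      rw [mem_filter, mem_filter, mem_range, mem_Icc]
      constructor
      · rintro ⟨h4, h5⟩
        exact ⟨⟨h5.1.one_lt.le, by omega⟩, h5⟩
      · rintro ⟨h4, h5⟩
        exact ⟨by omega, h5⟩
    rw [e0]
    apply prod_congr rfl
    intro p hp
    rw [mem_filter] at hp
    have := nuB_Pg G p hp.2.1
    unfold nuB at this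
    rw [this]
  have e2 : ((if hk : 0 < k then D ⟨0, hk⟩ else ∅).filter (fun d => ∀ p : ℕ, p.Prime → p ∣ b →
      p ≤ y → d % p ∉ (range p).filter (fun r => Pg G p r))).card = lastDigits b k D G := by
    unfold lastDigits
    have e3 : (Finset.univ : Finset (Fin k)).filter (fun i : Fin k => (i : ℕ) = 0) = {⟨0, hk0⟩} := by
      ext i
      rw [mem_filter, mem_singleton]
      constructor
      · rintro ⟨_, hi⟩
        exact Fin.ext hi
      · rintro rfl
        exact ⟨mem_univ _, rfl⟩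
    rw [e3, singleton_biUnion, dif_pos hk0]
    congr 1
    apply filter_congr
    intro d _
    constructor
    · intro h2
      by_contra hne
      obtain ⟨p, hp, hpd⟩ := Nat.exists_prime_and_dvd hne
      have h5 : (p : ℤ) ∣ (Int.gcd (G d) b : ℤ) := by exact_mod_cast hpd
      have h3 : (p : ℤ) ∣ (b : ℤ) := h5.trans (Int.gcd_dvd_right _ _)
      have h4 := h5.trans (Int.gcd_dvd_left _ _)
      have h3' : p ∣ b := by exact_mod_cast h3
      apply h2 p hp h3' ((Nat.le_of_dvd (by omega) h3').trans hby)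
      rw [mem_filter, mem_range]
      exact ⟨Nat.mod_lt _ hp.pos, hp, (hG p d hp).1 h4⟩
    · intro h2 p hp hpb _ hm
      rw [mem_filter] at hm
      have hd := (hG p d hp).2 hm.2.2
      have h5 : (p : ℤ) ∣ (Int.gcd (G d) b : ℤ) := Int.dvd_coe_gcd hd (by exact_mod_cast hpb)
      rw [h2] at h5
      have h6 : p ∣ 1 := by exact_mod_cast h5
      exact hp.one_lt.ne' (Nat.dvd_one.1 h6)
  rw [e1, e2]
  have e4 : Pd D = otherDigits k D := rfl
  rw [e4]

/-- the uniform asymptotic formula -/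
theorem count {b : ℕ} (hb : 2 ≤ b) (c : ℕ) (ε : ℝ) (hε : 0 < ε) :
    ∃ L k₀ : ℕ, 1 ≤ L ∧ ∀ k : ℕ, k₀ ≤ k → ∀ D : Fin k → Finset ℕ, DigitSets b k D →
      ∀ G : ℕ → ℤ, PerG G → (∀ p : ℕ, p.Prime → rho G p ≤ c) → ∀ y : ℕ, b ≤ y → y ^ L ≤ b ^ k →
      |((Start b k D G y).card : ℝ) - mainTerm b k D G y| ≤ ε * mainTerm b k D G y := by
  obtain ⟨L, k₀, hL, hmain⟩ := Fx_asy hb c ε hε
  refine ⟨L, k₀ + 1, hL, fun k hk D hD G hG hc y hby hy => ?_⟩
  have h := hmain k (by omega) D (fun i => (hD i).1) (fun i => (hD i).2) y hy (Pg G)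
    (perB_Pg G hG c hc)
  rw [Start_eq, Xt_eq b k hb (by omega) D G hG y hby] at h
  exact h

lemma omega_le (b k L C : ℕ) (hb : 2 ≤ b) (hL : 1 ≤ L) (hk : L ≤ k) (v : ℤ) (hv : v.natAbs ≤ b ^ (C * k))
    (hrough : ∀ p : ℕ, p.Prime → p ≤ b ^ (k / L) → ¬ (p : ℤ) ∣ v) :
    v ≠ 0 ∧ v.natAbs.primeFactorsList.length ≤ 2 * L * C := by
  have hkL : 1 ≤ k / L := (Nat.one_le_div_iff (by omega)).2 hk
  have hby : b ≤ b ^ (k / L) := Nat.le_self_pow (by omega) b
  have hv0 : v ≠ 0 := by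
    intro h
    apply hrough 2 Nat.prime_two (by omega)
    rw [h]
    exact dvd_zero _
  refine ⟨hv0, ?_⟩
  have hn0 : v.natAbs ≠ 0 := Int.natAbs_ne_zero.2 hv0
  have h1 : (b ^ (k / L)) ^ v.natAbs.primeFactorsList.length ≤ v.natAbs := by
    calc (b ^ (k / L)) ^ v.natAbs.primeFactorsList.length ≤ v.natAbs.primeFactorsList.prod := by
          apply Pool.Agent.Q263.SV.pow_len
          intro x hx
          by_contra hlt
          rw [not_le] at hlt
          exact hrough x (Nat.prime_of_mem_primeFactorsList hx) hlt.le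
            (Int.natCast_dvd.2 (Nat.dvd_of_mem_primeFactorsList hx))
      _ = v.natAbs := Nat.prod_primeFactorsList hn0
  obtain ⟨i, hi⟩ : ∃ i, i = v.natAbs.primeFactorsList.length := ⟨_, rfl⟩
  rw [← hi] at h1 ⊢
  have h2 := h1.trans hv
  rw [← pow_mul] at h2
  have h3 : k / L * i ≤ C * k := (Nat.pow_le_pow_iff_right (by omega)).1 h2
  have h4 : k < L * (k / L + 1) := Nat.lt_mul_div_succ k (by omega)
  have h5 : k ≤ 2 * L * (k / L) := by
    have : L * (k / L + 1) ≤ L * (2 * (k / L)) := Nat.mul_le_mul_left L (by omega)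
    calc k ≤ L * (2 * (k / L)) := by omega
      _ = _ := by ring
  have h6 : k / L * i ≤ k / L * (2 * L * C) := by
    calc k / L * i ≤ C * k := h3
      _ ≤ C * (2 * L * (k / L)) := Nat.mul_le_mul_left _ h5
      _ = _ := by ring
  exact Nat.le_of_mul_le_mul_left h6 hkL

open Classical in
/-- the lower bound for almost primes -/
theorem almost {b : ℕ} (hb : 2 ≤ b) (r : ℕ) :
    ∃ (m₀ k₀ : ℕ) (δ : ℝ), 0 < δ ∧ ∀ C : ℕ, ∀ k : ℕ, k₀ ≤ k →
      ∀ D : Fin k → Finset ℕ, DigitSets b k D → ∀ G : ℕ → ℤ, PerG G →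
      (∀ p : ℕ, p.Prime → rho G p ≤ r) → (∀ p : ℕ, p.Prime → rho G p < p) →
      (∀ n < b ^ k, (G n).natAbs ≤ b ^ (C * k)) → 1 ≤ lastDigits b k D G →
      δ * (Restricted b k D).card / (k : ℝ) ^ r ≤
        (((Restricted b k D).filter (fun n : ℕ => G n ≠ 0 ∧
          (G n).natAbs.primeFactorsList.length ≤ m₀ * C)).card : ℝ) := by
  obtain ⟨L, k₀, hL, hlow⟩ := Fx_low hb r
  obtain ⟨v, hv, hVlow⟩ := V_lower_unif r
  have hlb : 0 < Real.log b := Real.log_pos (by exact_mod_cast (by omega : 1 < b))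
  have hb0 : (0 : ℝ) < b := by exact_mod_cast (by omega : 0 < b)
  refine ⟨2 * L, k₀ + L, v / (2 * b * Real.log b ^ r), by positivity, ?_⟩
  intro C k hk D hD G hG hr hadm hsize hg
  have hk0 : 0 < k := by omega
  have hkr : (0 : ℝ) < k := by exact_mod_cast hk0
  have hkL : 1 ≤ k / L := (Nat.one_le_div_iff (by omega)).2 (by omega)
  have hby : b ≤ b ^ (k / L) := Nat.le_self_pow (by omega) b
  have hyL : (b ^ (k / L)) ^ L ≤ b ^ k := by
    rw [← pow_mul]
    exact Nat.pow_le_pow_right (by omega) (Nat.div_mul_le_self k L)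
  have hper := perB_Pg G hG r hr
  have h1 := hlow k (by omega) D (fun i => (hD i).1) (fun i => (hD i).2) _ hyL (Pg G) hper (by
      have h2 : (((Finset.univ : Finset (Fin k)).filter (fun i : Fin k => (i : ℕ) = 0)).biUnion
          (fun i => (D i).filter (fun d : ℕ => Int.gcd (G d) b = 1))).Nonempty := card_pos.1 hg
      obtain ⟨d, hd⟩ := h2
      rw [mem_biUnion] at hd
      obtain ⟨i, hi, hd⟩ := hd
      rw [mem_filter] at hi hd
      refine ⟨i, hi.2, d, hd.1, ?_⟩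
      rintro p hp hpb ⟨_, hj⟩
      have h5 : (p : ℤ) ∣ (Int.gcd (G d) b : ℤ) := Int.dvd_coe_gcd hj (by exact_mod_cast hpb)
      rw [hd.2] at h5
      have h6 : p ∣ 1 := by exact_mod_cast h5
      exact hp.one_lt.ne' (Nat.dvd_one.1 h6))
  rw [Start_eq] at h1
  have h2 := hVlow (Pg G) hper (fun p hp => by
    rw [nuB_Pg G p hp]
    exact hadm p hp) (b ^ (k / L)) (hb.trans hby)
  have hlogy : Real.log ((b ^ (k / L) : ℕ) : ℝ) ≤ k * Real.log b := by
    push_cast
    rw [Real.log_pow]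
    apply mul_le_mul_of_nonneg_right _ hlb.le
    exact_mod_cast Nat.div_le_self k L
  have hlogy0 : 0 < Real.log ((b ^ (k / L) : ℕ) : ℝ) :=
    Real.log_pos (by exact_mod_cast (by omega : 1 < b ^ (k / L)))
  have h3 : v / (k * Real.log b) ^ r ≤ Vq (Pg G) (b ^ (k / L)) := by
    refine le_trans ?_ h2
    apply div_le_div_of_nonneg_left hv.le (by positivity)
    exact pow_le_pow_left₀ hlogy0.le hlogy r
  refine le_trans ?_ (h1.trans ?_)
  · have h4 : ((Restricted b k D).card : ℝ) * (v / (k * Real.log b) ^ r) / (2 * b) ≤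
        (Dig b k D).card * Vq (Pg G) (b ^ (k / L)) / (2 * b) := by
      apply div_le_div_of_nonneg_right _ (by positivity)
      exact mul_le_mul_of_nonneg_left h3 (Nat.cast_nonneg _)
    refine le_trans (le_of_eq ?_) h4
    rw [mul_pow]
    field_simp
  · apply Nat.cast_le.2
    apply card_le_card
    intro n hn
    unfold Start at hn
    rw [mem_filter] at hn ⊢
    refine ⟨hn.1, ?_⟩
    apply omega_le b k L C hb hL (by omega)
    · apply hsize
      have := hn.1
      unfold Restricted at this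
      rw [mem_filter, mem_range] at this
      exact this.1
    · intro p hp hpy
      exact hn.2 p hp hpy

end Pool.Agent.Q263.PK.Gen
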