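import Pool.Agent.Q263.PK.Dig
import Pool.Agent.Q263.PL.Win

set_option autoImplicit false

/-!
# The conditional Poisson law for all windows of bounded mean
-/

namespace Pool.Agent.Q263.PK

open Finset Filter Pool.Agent.H373R2.T7 Pool.Agent.W123.RP Pool.Agent.W123.RU Pool.Agent.TH464.PO
open Pool.Agent.Q236.CP Pool.Agent.Q236.ML
open Pool.Agent.Q263.PL
open Pool.Agent.Q263.MD (Dig)

open Classical in
/-- **The conditional Poisson law for the windows after the integers with restricted digits.** -/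
theorem law_win2 {b : ℕ} (hb : 2 ≤ b) (c : ℕ) (x0 ε : ℝ) (hε : 0 < ε) :
    ∃ (L k₀ T0 w : ℕ) (η' κ : ℝ), 1 ≤ L ∧ 0 < η' ∧ 0 < κ ∧
      ∀ k : ℕ, k₀ ≤ k → ∀ D : Fin k → Finset ℕ, (∀ i, ∀ d ∈ D i, d < b) →
      (∀ i, ∃ c ∈ D i, ∃ c' ∈ D i, c < c' ∧ ∀ p : ℕ, p.Prime → p ∣ c' - c → p ∣ b) →
      ∀ (y : ℕ) (P Q : ℕ → ℕ → Prop), y ^ L ≤ b ^ k → PerB P c → PerB Q c →
      (∀ p : ℕ, p.Prime → nuB Q p < p) → w ≤ y → Vq Q y ≤ κ →
      (∀ T : ℕ, κ ≤ T * Vq Q y → T * Vq Q y ≤ max x0 1 → T0 ≤ T ∧ ∀ t ∈ Icc 1 T,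
        ((((pz y).filter (fun p : ℕ => T < p ∧ CoG Q p t)).card : ℕ) : ℝ) ≤ η' * T ∧
        ((((pz y).filter (fun p : ℕ => T < p ∧ CoP P Q p t)).card : ℕ) : ℝ) ≤ η' * T) →
      ∀ T : ℕ, T * Vq Q y ≤ x0 → ∀ A : Finset ℕ,
        |(((Fx P y (Dig b k D)).filter (fun n => Nw Q y T n ∈ A)).card : ℝ) -
          (Fx P y (Dig b k D)).card * Po (T * Vq Q y) A| ≤ ε * (Fx P y (Dig b k D)).card := by
  obtain ⟨w, hw2, hlaw⟩ := law_dig2 hb c (max x0 1) (ε / 4) (by positivity) (by positivity)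
  obtain ⟨L, k₀, T0, η', v0, hL, hη', hv0, hmain⟩ := hlaw w le_rfl (Mw w) (Nat.cast_nonneg _)
  obtain ⟨κ, hκ⟩ : ∃ κ, κ = min v0 (min (ε / 8) (1 / 2)) := ⟨_, rfl⟩
  have hκ0 : 0 < κ := by rw [hκ]; positivity
  have hκv : κ ≤ v0 := by rw [hκ]; exact min_le_left _ _
  have hκ1 : κ ≤ ε / 8 := by rw [hκ]; exact (min_le_right _ _).trans (min_le_left _ _)
  have hκ2 : κ ≤ 1 / 2 := by rw [hκ]; exact (min_le_right _ _).trans (min_le_right _ _)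
  refine ⟨L, k₀, T0, w, η', κ, hL, hη', hκ0, ?_⟩
  intro k hk D hD hpair y P Q hyL hP hQ hadm hwy hVκ hT T hTx A
  have hV0 : 0 < Vq Q y := Vq_pos Q hadm y
  have hbig : ∀ T : ℕ, κ ≤ T * Vq Q y → T * Vq Q y ≤ max x0 1 → ∀ A : Finset ℕ,
      |(((Fx P y (Dig b k D)).filter (fun n => Nw Q y T n ∈ A)).card : ℝ) -
        (Fx P y (Dig b k D)).card * Po (T * Vq Q y) A| ≤ ε / 4 * (Fx P y (Dig b k D)).card := by
    intro T h1 h2 A
    obtain ⟨hT0, hlarge⟩ := hT T h1 h2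
    exact hmain k hk D hD hpair y T P Q hyL hP hQ hadm hwy hT0 h2 (hVκ.trans hκv)
      (fun t ht => (hlarge t ht).1) (fun t ht => (hlarge t ht).2) (Icc 1 T) T
      (Subset.refl _) (Nat.cast_nonneg _) le_rfl (fun m => window Q c hQ w m T) A
  have hS0 : (0 : ℝ) ≤ (Fx P y (Dig b k D)).card := Nat.cast_nonneg _
  by_cases hκT : κ ≤ T * Vq Q y
  · refine (hbig T hκT (hTx.trans (le_max_left _ _)) A).trans ?_
    nlinarith
  · rw [not_le] at hκT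
    obtain ⟨T', h1, h2, h3⟩ := exists_window (Vq Q y) κ hV0 hVκ
    have h4 := hbig T' h1 (h2.trans ((by linarith : 2 * κ ≤ 1).trans (le_max_right _ _))) {0}
    unfold Po at h4 ⊢
    have h5 := extend (Fx P y (Dig b k D)) (fun n => Nw Q y T n) (fun n => Nw Q y T' n)
      (fun n => Nw_mono Q y T T' n (h3 T hκT)) (T * Vq Q y) (T' * Vq Q y) (ε / 4)
      (by positivity) (by linarith) h4 A
    refine h5.trans ?_
    nlinarith

end Pool.Agent.Q263.PK
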